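import Mathlib
import Pool.Agent.H57.CP.Defs

/-!
# Two-orbit polyhedra in hyperbolic 3-space (MP_397744_co): definitions and the theorem

`H3`, `ch`, `IsIso`, `IsPolyhedron`, `IsFaithful`, `IsSymmetry`, `IsFlag`, `SameOrbit` are in `Pool.Agent.H57.CP.Defs`.
-/

namespace Pool.Agent.H39.TO

open Pool.Agent.H57.CP

/-- geometrically two-orbit: the symmetries have exactly two orbits on flags -/
structure IsTwoOrbit {P : Type} [PartialOrder P] (rk : P → ℤ) (β : P → H3) : Prop where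
  two : ∃ Φ Ψ, IsFlag rk Φ ∧ IsFlag rk Ψ ∧ ¬ SameOrbit rk β Φ Ψ
  le_two : ∀ Φ Ψ Θ, IsFlag rk Φ → IsFlag rk Ψ → IsFlag rk Θ →
    SameOrbit rk β Φ Ψ ∨ SameOrbit rk β Ψ Θ ∨ SameOrbit rk β Φ Θ

/-- the numbers of vertices of the faces -/
def faceSizes {P : Type} [PartialOrder P] (rk : P → ℤ) : Set ℕ∞ :=
  {n | ∃ f, rk f = 2 ∧ {v | rk v = 0 ∧ v < f}.encard = n}

/-- the numbers of edges at the vertices -/
def degrees {P : Type} [PartialOrder P] (rk : P → ℤ) : Set ℕ∞ :=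
  {n | ∃ v, rk v = 0 ∧ {e | rk e = 1 ∧ v < e}.encard = n}

/-- there is a two-orbit geometric polyhedron in hyperbolic 3-space whose face sizes are the elements of `A` and whose
vertex degrees are the elements of `B` -/
def Occurs (A B : Set ℕ∞) : Prop :=
  ∃ (P : Type) (_ : PartialOrder P) (_ : BoundedOrder P) (rk : P → ℤ) (β : P → H3),
    IsPolyhedron P rk ∧ IsFaithful rk β ∧ IsTwoOrbit rk β ∧ faceSizes rk = A ∧ degrees rk = B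

/-- even or infinite -/
def EvTop (p : ℕ∞) : Prop := p = ⊤ ∨ ∃ m : ℕ, p = (2 * m : ℕ)

/-- the types which occur -/
def Allowed (A B : Set ℕ∞) : Prop :=
  (∃ (p p' : ℕ∞) (n : ℕ), 3 ≤ p ∧ 3 ≤ p' ∧ p ≠ p' ∧ 2 ≤ n ∧ A = {p, p'} ∧ B = {((2 * n : ℕ) : ℕ∞)}) ∨
  (∃ (p : ℕ∞) (q q' : ℕ), EvTop p ∧ 4 ≤ p ∧ 2 ≤ q ∧ 2 ≤ q' ∧ q ≠ q' ∧ A = {p} ∧ B = {(q : ℕ∞), (q' : ℕ∞)}) ∨
  (∃ (p : ℕ∞) (q : ℕ), 3 ≤ q ∧ A = {p} ∧ B = {(q : ℕ∞)} ∧ ((EvTop p ∧ 4 ≤ p) ∨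
    ∃ m : ℕ, p = m ∧ Odd m ∧ 5 ≤ m ∧ (q = 4 ∨ q = 2 * m ∨ (q = 6 ∧ ¬ 3 ∣ m))))

/-- THE THEOREM: the face sizes and vertex degrees of all two-orbit polyhedra in hyperbolic 3-space -/
def Main : Prop := ∀ A B : Set ℕ∞, Occurs A B ↔ Allowed A B

end Pool.Agent.H39.TO
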