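import Mathlib
import Pool.Agent.H57.CP.Geo
import Pool.Agent.H39.TO.Defs

/-!
# Two-orbit polyhedra in hyperbolic 3-space: set form, classes, groups

`Geo`, `IsGeo`, `Fl`, `A0`, `A1`, `A2`, `act`, `Sy`, `Eqv`, `Kof`, `Cell`, `Lor`, `Ext`, `refl`, `rot`, `o`, `pt` are in
`Pool.Agent.H57.CP.Geo`.
-/

namespace Pool.Agent.H39.TO

open Pool.Agent.H57.CP

/-! ## Set form -/

/-- exactly two orbits of flags -/
structure Two (K : Geo) : Prop where
  two : ∃ Φ Ψ, Fl K Φ ∧ Fl K Ψ ∧ ¬ Eqv K Φ Ψ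
  le_two : ∀ Φ Ψ Θ, Fl K Φ → Fl K Ψ → Fl K Θ → Eqv K Φ Ψ ∨ Eqv K Ψ Θ ∨ Eqv K Φ Θ

/-- vertices of a face -/
def vts (f : Set (Set H3)) : Set H3 := {x | ∃ e ∈ f, x ∈ e}

/-- edges at a vertex -/
def eds (K : Geo) (x : H3) : Set (Set H3) := {e | e ∈ K.E ∧ x ∈ e}

/-- face sizes -/
def FS (K : Geo) : Set ℕ∞ := {n | ∃ f ∈ K.F, (vts f).encard = n}

/-- vertex degrees -/
def DG (K : Geo) : Set ℕ∞ := {n | ∃ x ∈ K.V, (eds K x).encard = n}

/-- the three adjacencies -/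
def AA (K : Geo) : Fin 3 → Fg → Fg → Prop := ![A0 K, A1 K, A2 K]

/-- `i`-adjacent flags are in the same orbit -/
def In (K : Geo) (i : Fin 3) : Prop := ∀ Φ Ψ, AA K i Φ Ψ → Eqv K Φ Ψ

/-- `i`-adjacent flags are in different orbits -/
def Out (K : Geo) (i : Fin 3) : Prop := ∀ Φ Ψ, AA K i Φ Ψ → ¬ Eqv K Φ Ψ

/-- the two maps agree on the vertices -/
def EqV (K : Geo) (g h : Equiv.Perm H3) : Prop := ∀ x ∈ K.V, g x = h x

/-- the group generated by three bijections -/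
def G3 (a b c : Equiv.Perm H3) : Subgroup (Equiv.Perm H3) := Subgroup.closure {a, b, c}

/-! ## Reflections -/

/-- the monoid (in fact a group) generated by three reflections -/
def Gam (n0 n1 n2 : V4) : Submonoid (Module.End ℝ V4) := Submonoid.closure {refl n0, refl n1, refl n2}

/-- only finitely many elements move a given point by a bounded distance -/
def Proper (G : Submonoid (Module.End ℝ V4)) : Prop := ∀ (x : H3) (R : ℝ), {g | g ∈ G ∧ mk x.1 (g x.1) ≤ R}.Finite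

/-- three reflections which give a two-orbit polyhedron with `p`-gonal faces and degrees `2 n` -/
structure RefD (p n : ℕ) (v : H3) (n0 n1 n2 : V4) : Prop where
  u0 : mk n0 n0 = -1
  u1 : mk n1 n1 = -1
  u2 : mk n2 n2 = -1
  v0 : mk v.1 n0 ≠ 0
  v1 : mk v.1 n1 = 0
  v2 : mk v.1 n2 = 0
  li : LinearIndependent ℝ ![n0, n1, n2]
  o1 : ∀ m : ℕ, (refl n0 * refl n1) ^ m = 1 ↔ p ∣ m
  o2 : ∀ m : ℕ, (refl n0 * refl n2) ^ m = 1 ↔ p ∣ m
  o3 : ∀ m : ℕ, (refl n1 * refl n2) ^ m = 1 ↔ n ∣ m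
  nn : 2 ≤ n
  ne : (mk n0 n1) ^ 2 ≠ (mk n0 n2) ^ 2
  pro : ∀ R : ℝ, {g | g ∈ Gam n0 n1 n2 ∧ mk v.1 (g v.1) ≤ R}.Finite

/-- three reflections with angles `π / p`, `π / p` at the first one -/
structure Tri (p : ℕ) (n0 t t' : V4) : Prop where
  u0 : mk n0 n0 = -1
  ut : mk t t = -1
  ut' : mk t' t' = -1
  a : mk n0 t = Real.cos (Real.pi / p)
  a' : mk n0 t' = Real.cos (Real.pi / p)
  li : LinearIndependent ℝ ![n0, t, t']
  pro : Proper (Gam n0 t t')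

/-- hyperbolic cosine (or cosine, or 1) of the distance of the two centres -/
noncomputable def CC (p : ℕ) (t t' : V4) : ℝ := (mk t t' + Real.cos (Real.pi / p) ^ 2) / Real.sin (Real.pi / p) ^ 2

/-- the number `f(k,k')` -/
noncomputable def fk (p : ℕ) (C : ℝ) (k k' : ℕ) : ℝ :=
  C * Real.sin (k * Real.pi / p) * Real.sin (k' * Real.pi / p) - Real.cos (k * Real.pi / p) * Real.cos (k' * Real.pi / p)

/-- `cos (2 π / p)` -/
noncomputable def c2 (p : ℕ) : ℝ := Real.cos (2 * Real.pi / p)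

/-- models: the first two normals -/
noncomputable def nM : V4 := ![0, 1, 0, 0]
noncomputable def tM (p : ℕ) : V4 := ![Real.sin (Real.pi / p), -Real.cos (Real.pi / p), 0, 0]
/-- the third normal, hyperbolic case -/
noncomputable def hM (p : ℕ) (C : ℝ) : V4 :=
  ![-(Real.sin (Real.pi / p) * C), -Real.cos (Real.pi / p), 0, -(Real.sin (Real.pi / p) * Real.sqrt (C ^ 2 - 1))]
/-- the third normal, spherical case -/
noncomputable def sM (p : ℕ) (C : ℝ) : V4 :=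
  ![-(Real.sin (Real.pi / p) * C), -Real.cos (Real.pi / p), Real.sin (Real.pi / p) * Real.sqrt (1 - C ^ 2), 0]

/-- second centre, hyperbolic case -/
noncomputable def aH (C : ℝ) : V4 := ![Real.sqrt (C ^ 2 - 1), 0, 0, C]
/-- centres, spherical case -/
noncomputable def e2 : V4 := ![0, 0, 1, 0]
noncomputable def aS (C : ℝ) : V4 := ![Real.sqrt (1 - C ^ 2), 0, C, 0]

/-- all centres, hyperbolic case -/
def PH (p : ℕ) (C : ℝ) : Set V4 := {x | ∃ g ∈ Gam nM (tM p) (hM p C), x = g o.1 ∨ x = g (aH C)}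
/-- all centres, spherical case -/
def PS (p : ℕ) (C : ℝ) : Set V4 := {x | ∃ g ∈ Gam nM (tM p) (sM p C), x = g e2 ∨ x = g (aS C)}

/-! ## Coxeter groups of rank three -/

/-- simple reflections -/
abbrev ss (M : CoxeterMatrix (Fin 3)) (i : Fin 3) : M.Group := M.toCoxeterSystem.simple i

/-- unit normals for a Coxeter matrix (entry 0 means infinite order) -/
structure Nrm (M : CoxeterMatrix (Fin 3)) (al : Fin 3 → V4) : Prop where
  unit : ∀ i, mk (al i) (al i) = -1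
  fin : ∀ i j, i ≠ j → M i j ≠ 0 → mk (al i) (al j) = Real.cos (Real.pi / (M i j : ℕ))
  inf : ∀ i j, i ≠ j → M i j = 0 → 1 ≤ mk (al i) (al j)
  li : LinearIndependent ℝ al

/-- the geometric representation -/
def Sg (M : CoxeterMatrix (Fin 3)) (al : Fin 3 → V4) (σ : M.Group →* Module.End ℝ V4) : Prop :=
  ∀ i, σ (ss M i) = refl (al i)

/-- the action on `H3` -/
def Ps (M : CoxeterMatrix (Fin 3)) (σ : M.Group →* Module.End ℝ V4) (ψ : M.Group →* Equiv.Perm H3) : Prop :=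
  ∀ w, IsIso (ψ w) ∧ Ext (σ w) (ψ w)

/-- the Coxeter matrix with entries `m01`, `m02`, `m12` -/
def cox (m01 m02 m12 : ℕ) (h : m01 ≠ 1 ∧ m02 ≠ 1 ∧ m12 ≠ 1) : CoxeterMatrix (Fin 3) where
  M := !![1, m01, m02; m01, 1, m12; m02, m12, 1]
  isSymm := by ext i j; fin_cases i <;> fin_cases j <;> rfl
  diagonal := by intro i; fin_cases i <;> rfl
  off_diagonal := by
    intro i j hij
    fin_cases i <;> fin_cases j <;> simp at hij ⊢ <;> tauto

/-! ## The polyhedra of the groups -/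

/-- order of an element, infinite order is `⊤` -/
noncomputable def oE (g : Equiv.Perm H3) : ℕ∞ := if orderOf g = 0 then ⊤ else (orderOf g : ℕ∞)

/-- the face of a dihedral group -/
def fc (a b : Equiv.Perm H3) (e : Set H3) : Set (Set H3) := {x | ∃ g ∈ Subgroup.closure {a, b}, x = g '' e}

/-- generators for class `{0, 1}` -/
structure BStr (v : H3) (r a b : Equiv.Perm H3) : Prop where
  ir : IsIso r
  ia : IsIso a
  ib : IsIso b
  rr : r * r = 1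
  aa : a * a = 1
  bb : b * b = 1
  a1 : a ≠ 1
  b1 : b ≠ 1
  ab : a ≠ b
  av : a v = v
  bv : b v = v
  rv : r v ≠ v
  st : ∀ g ∈ G3 r a b, g v = v → g ∈ Subgroup.closure {a, b}
  fr : ∀ g ∈ Subgroup.closure {a, b}, g (r v) = r v → g = 1
  ra : ∀ g ∈ Subgroup.closure {r, a}, g ∈ Subgroup.closure {a, b} → g = 1 ∨ g = a
  rb : ∀ g ∈ Subgroup.closure {r, b}, g ∈ Subgroup.closure {a, b} → g = 1 ∨ g = b
  di : ∃ ε : ℝ, 0 < ε ∧ ∀ g ∈ G3 r a b, g v ≠ v → 1 + ε ≤ ch v (g v)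

/-- the polyhedron for class `{0, 1}` -/
def KB (v : H3) (r a b : Equiv.Perm H3) : Geo :=
  ⟨{x | ∃ g ∈ G3 r a b, x = g v}, {e | ∃ g ∈ G3 r a b, e = g '' {v, r v}},
    {f | ∃ g ∈ G3 r a b, f = (Set.image g) '' fc r a {v, r v} ∨ f = (Set.image g) '' fc r b {v, r v}}⟩

/-- generators for class `{1, 2}` -/
structure AStr (v v' : H3) (a b c : Equiv.Perm H3) : Prop where
  ia : IsIso a
  ib : IsIso b
  ic : IsIso c
  aa : a * a = 1
  bb : b * b = 1
  cc : c * c = 1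
  a1 : a ≠ 1
  b1 : b ≠ 1
  c1 : c ≠ 1
  ab : a ≠ b
  ac : a ≠ c
  bc : b ≠ c
  av : a v = v
  cv : c v = v
  bv' : b v' = v'
  cv' : c v' = v'
  st : ∀ g ∈ G3 a b c, g v = v → g ∈ Subgroup.closure {a, c}
  st' : ∀ g ∈ G3 a b c, g v' = v' → g ∈ Subgroup.closure {b, c}
  ne : ∀ g ∈ G3 a b c, g v ≠ v'
  ia1 : ∀ g ∈ Subgroup.closure {a, b}, g ∈ Subgroup.closure {a, c} → g = 1 ∨ g = a
  ib1 : ∀ g ∈ Subgroup.closure {a, b}, g ∈ Subgroup.closure {b, c} → g = 1 ∨ g = b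
  ic1 : ∀ g ∈ Subgroup.closure {a, c}, g ∈ Subgroup.closure {b, c} → g = 1 ∨ g = c
  q3 : (a * c) ^ 2 ≠ 1 ∨ (b * c) ^ 2 ≠ 1
  di : ∃ ε : ℝ, 0 < ε ∧ ∀ g ∈ G3 a b c, (g v ≠ v → 1 + ε ≤ ch v (g v)) ∧ (g v' ≠ v' → 1 + ε ≤ ch v' (g v')) ∧
    1 + ε ≤ ch v (g v')

/-- the polyhedron for class `{1, 2}` -/
def KA (v v' : H3) (a b c : Equiv.Perm H3) : Geo :=
  ⟨{x | ∃ g ∈ G3 a b c, x = g v ∨ x = g v'}, {e | ∃ g ∈ G3 a b c, e = g '' {v, v'}},
    {f | ∃ g ∈ G3 a b c, f = (Set.image g) '' fc a b {v, v'}}⟩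

end Pool.Agent.H39.TO
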