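import Mathlib
import Pool.Agent.H39.TO.Geo
import Pool.Agent.H57.CP.Targets

/-!
# Two-orbit polyhedra in hyperbolic 3-space: targets

One `Prop` `T_XX` per module. Paper proof: team store `H39_TWO.md`.
-/

namespace Pool.Agent.H39.TO

open Pool.Agent.H57.CP

/-! ## From the literal definitions to the set form and back -/

def T_LBT : Prop := ∀ (P : Type) [PartialOrder P] [BoundedOrder P] (rk : P → ℤ) (β : P → H3),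
  IsPolyhedron P rk → IsFaithful rk β → IsTwoOrbit rk β → Two (Kof rk β)

def T_LCT : Prop := ∀ (P : Type) [PartialOrder P] [BoundedOrder P] (rk : P → ℤ) (β : P → H3),
  IsPolyhedron P rk → IsFaithful rk β → FS (Kof rk β) = faceSizes rk ∧ DG (Kof rk β) = degrees rk

def T_LET : Prop := ∀ K : Geo, IsGeo K → (Two K → IsTwoOrbit (Cell.rk (K := K)) (Cell.real o)) ∧
  faceSizes (Cell.rk (K := K)) = FS K ∧ degrees (Cell.rk (K := K)) = DG K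

/-! ## Classes, sizes, parity -/

/-- being in the same orbit is an equivalence relation, and it preserves the sizes -/
def T_EQV : Prop := ∀ K : Geo, (∀ Φ, Eqv K Φ Φ) ∧ (∀ Φ Ψ, Eqv K Φ Ψ → Eqv K Ψ Φ) ∧
  (∀ Φ Ψ Θ, Eqv K Φ Ψ → Eqv K Ψ Θ → Eqv K Φ Θ) ∧
  ∀ Φ Ψ, Eqv K Φ Ψ → (vts Φ.2.2).encard = (vts Ψ.2.2).encard ∧ (eds K Φ.1).encard = (eds K Ψ.1).encard

/-- for each `i` either all or no flags are equivalent to their `i`-adjacent flags; not all `i` are of the first kind -/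
def T_CLS : Prop := ∀ K : Geo, IsGeo K → Two K → (∀ i, In K i ∨ Out K i) ∧ ∃ i, Out K i

/-- sizes and classes -/
def T_SIN : Prop := ∀ K : Geo, IsGeo K → Two K →
  (∃ p p', FS K = {p, p'}) ∧ (∃ q q', DG K = {q, q'}) ∧
  (Out K 0 ∨ Out K 1 ∨ In K 2 → ∃ p, FS K = {p}) ∧ (In K 0 ∨ Out K 1 ∨ Out K 2 → ∃ q, DG K = {q})

/-- small sizes do not occur -/
def T_SML : Prop := ∀ K : Geo, IsGeo K → (∀ n ∈ FS K, 3 ≤ n) ∧ (∀ n ∈ DG K, 2 ≤ n) ∧ DG K ≠ {2}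

/-- finite degrees -/
def T_QFI : Prop := ∀ K : Geo, IsGeo K → Two K → ∀ n ∈ DG K, n ≠ ⊤

/-- walking around a face -/
def T_CYF : Prop := ∀ (K : Geo) (Ψ : ℕ → Fg) (p : ℕ∞), IsGeo K →
  (∀ k, A0 K (Ψ (2 * k)) (Ψ (2 * k + 1)) ∧ A1 K (Ψ (2 * k + 1)) (Ψ (2 * k + 2))) → (vts (Ψ 0).2.2).encard = p →
  (∀ m : ℕ, 0 < m → ((Ψ (2 * m)).1 = (Ψ 0).1 ↔ ∃ n : ℕ, p = n ∧ n ∣ m)) ∧
  (∀ m : ℕ, (Ψ (2 * m)).1 = (Ψ 0).1 → Ψ (2 * m) = Ψ 0) ∧ ∀ n : ℕ, p = n → vts (Ψ 0).2.2 = {x | ∃ k, x = (Ψ (2 * k)).1}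

/-- walking around a vertex -/
def T_CYV : Prop := ∀ (K : Geo) (Ψ : ℕ → Fg) (q : ℕ∞), IsGeo K →
  (∀ k, A1 K (Ψ (2 * k)) (Ψ (2 * k + 1)) ∧ A2 K (Ψ (2 * k + 1)) (Ψ (2 * k + 2))) → (eds K (Ψ 0).1).encard = q →
  (∀ m : ℕ, 0 < m → ((Ψ (2 * m)).2.1 = (Ψ 0).2.1 ↔ ∃ n : ℕ, q = n ∧ n ∣ m)) ∧
  (∀ m : ℕ, (Ψ (2 * m)).2.1 = (Ψ 0).2.1 → Ψ (2 * m) = Ψ 0) ∧ ∀ n : ℕ, q = n → eds K (Ψ 0).1 = {e | ∃ k, e = (Ψ (2 * k)).2.1}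

/-- parity -/
def T_PAR2 : Prop := ∀ K : Geo, IsGeo K → Two K →
  (∀ n : ℕ, (n : ℕ∞) ∈ FS K → Odd n → (In K 0 ↔ In K 1)) ∧ (∀ n : ℕ, (n : ℕ∞) ∈ DG K → Odd n → (In K 1 ↔ In K 2))

/-- chiral polyhedra -/
def T_OOO : Prop := ∀ K : Geo, IsGeo K → Two K → Out K 0 → Out K 1 → Out K 2 → Chi K

/-! ## Class {2}, odd faces -/

/-- the data of a polyhedron of class `{2}` -/
structure D2 (K : Geo) (v v1 : H3) (f : Set (Set H3)) (S R : Equiv.Perm H3) (p : ℕ) : Prop where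
  sS : Sy K S
  sR : Sy K R
  fl : Fl K (v, {v, v1}, f)
  ne : v ≠ v1
  Sv : S v = v1
  Rv : R v = v
  Rv1 : R v1 = v1
  Sf : (Set.image S) '' f = f
  Sm : ∀ m : ℕ, (S ^ m) v = v ↔ p ∣ m
  Sp : ∀ x ∈ K.V, (S ^ p) x = x
  eV : K.V = Orb v S R
  eE : K.E = {e | ∃ g ∈ Gr S R, e = g '' {v, v1}}
  eF : K.F = {h | ∃ g ∈ Gr S R, h = (Set.image g) '' f}
  ef : f = {e | ∃ k : ℤ, e = (S ^ k : Equiv.Perm H3) '' {v, v1}}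

def T_D2A : Prop := ∀ (K : Geo) (p : ℕ), IsGeo K → Two K → Out K 0 → Out K 1 → In K 2 → FS K = {(p : ℕ∞)} →
  ∃ v v1 f S R, D2 K v v1 f S R p

/-- the faces are plane if `p` is odd: a Lorentz map `D` of determinant 1 which extends `S` on the vertices and a unit
vector `u` orthogonal to the vertices of the face -/
def T_PLN : Prop := ∀ (S : Equiv.Perm H3) (v : H3) (p : ℕ), IsIso S → Odd p → 3 ≤ p → (∀ m : ℕ, (S ^ m) v = v ↔ p ∣ m) →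
  ∃ (D : V4 →ₗ[ℝ] V4) (c u : V4), Lor D ∧ (∀ x : H3, ((S ^ p) x = x → D x.1 = (S x).1)) ∧
    (∀ x : H3, D x.1 = ((S ^ (p + 1)) x).1) ∧ LinearMap.det D = 1 ∧ D c = c ∧ c = ∑ k ∈ Finset.range p, ((S ^ k) v).1 ∧ 0 < mk c c ∧
    mk u u = -1 ∧ D u = u ∧ mk c u = 0 ∧ ∀ k : ℕ, mk ((S ^ k) v).1 u = 0

/-- reflections invert rotations -/
def T_INV : Prop := ∀ (D : V4 →ₗ[ℝ] V4) (c u n : V4), Lor D → LinearMap.det D = 1 → D c = c → D u = u → 0 < mk c c →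
  mk u u = -1 → mk c u = 0 → mk n n = -1 → mk n c = 0 → mk n u = 0 → D * refl n * D = refl n

def T_NET : Prop := ∀ (K : Geo) (p : ℕ), IsGeo K → Two K → Out K 0 → Out K 1 → In K 2 → FS K = {(p : ℕ∞)} → ¬ Odd p

/-! ## Class {0, 1}, odd faces -/

/-- the data of a polyhedron of class `{0, 1}` -/
structure D01 (K : Geo) (v v1 : H3) (f f' : Set (Set H3)) (a b c : Equiv.Perm H3) (p q : ℕ) : Prop where
  sa : Sy K a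
  sb : Sy K b
  sc : Sy K c
  fl : Fl K (v, {v, v1}, f)
  fl' : Fl K (v, {v, v1}, f')
  ne : v ≠ v1
  ff : f ≠ f'
  av : a v = v1
  av1 : a v1 = v
  bv : b v = v
  cv : c v = v
  aa : ∀ x ∈ K.V, a (a x) = x
  bb : ∀ x ∈ K.V, b (b x) = x
  cc : ∀ x ∈ K.V, c (c x) = x
  o1 : ∀ m : ℕ, ((a * b) ^ m) v = v ↔ p ∣ m
  o1' : ∀ x ∈ K.V, ((a * b) ^ p) x = x
  o2 : ∀ m : ℕ, ((a * c) ^ m) v = v ↔ p ∣ m
  o2' : ∀ x ∈ K.V, ((a * c) ^ p) x = x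
  o3 : ∀ m : ℕ, (∀ x ∈ K.V, ((b * c) ^ m) x = x) ↔ q ∣ 2 * m
  q2 : 2 ∣ q
  st : ∀ g ∈ G3 a b c, g v = v → ∃ h ∈ Subgroup.closure {b, c}, EqV K g h
  eV : K.V = {x | ∃ g ∈ G3 a b c, x = g v}
  eE : K.E = {e | ∃ g ∈ G3 a b c, e = g '' {v, v1}}
  eF : K.F = {h | ∃ g ∈ G3 a b c, h = (Set.image g) '' f ∨ h = (Set.image g) '' f'}
  ef : f = fc a b {v, v1}
  ef' : f' = fc a c {v, v1}
  out : ¬ ∃ g, Sy K g ∧ g v = v ∧ g v1 = v1 ∧ (Set.image g) '' f = f'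

def T_D0A : Prop := ∀ (K : Geo) (p q : ℕ), IsGeo K → Two K → In K 0 → In K 1 → Out K 2 → FS K = {(p : ℕ∞)} →
  DG K = {(q : ℕ∞)} → ∃ v v1 f f' a b c, D01 K v v1 f f' a b c p q

/-- the three generators act as reflections on the vertices -/
def T_RFL : Prop := ∀ (K : Geo) (v v1 : H3) (f f' : Set (Set H3)) (a b c : Equiv.Perm H3) (p q : ℕ), IsGeo K →
  D01 K v v1 f f' a b c p q → Odd p → 3 ≤ p → ∃ n0 : V4, mk n0 n0 = -1 ∧ (∃ r : ℝ, 0 < r ∧ n0 = r • (v.1 - v1.1)) ∧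
    ∀ x ∈ K.V, refl n0 x.1 = (a x).1

def T_RFM : Prop := ∀ (K : Geo) (v v1 : H3) (f f' : Set (Set H3)) (a b c : Equiv.Perm H3) (p q : ℕ), IsGeo K →
  D01 K v v1 f f' a b c p q → Odd p → 3 ≤ p → ∃ n0 n1 n2 : V4, mk n0 n0 = -1 ∧ mk n1 n1 = -1 ∧ mk n2 n2 = -1 ∧
    (∀ x ∈ K.V, refl n0 x.1 = (a x).1) ∧ (∀ x ∈ K.V, refl n1 x.1 = (b x).1) ∧ (∀ x ∈ K.V, refl n2 x.1 = (c x).1) ∧
    (∀ i : Fin 3, ![n0, n1, n2] i ∈ Submodule.span ℝ (Subtype.val '' K.V))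

/-- a product of reflections with normals in the span of `V` which fixes `V` is the identity -/
def T_SPV : Prop := ∀ (V : Set H3) (g : Module.End ℝ V4), V.Nonempty →
  g ∈ Submonoid.closure {r | ∃ n : V4, mk n n = -1 ∧ n ∈ Submodule.span ℝ (Subtype.val '' V) ∧ r = refl n} →
  (∀ x ∈ V, g x.1 = x.1) → g = 1

/-- separated sets are finite in balls -/
def T_BAL : Prop := ∀ (V : Set H3) (ε : ℝ), 0 < ε → (∀ x ∈ V, ∀ y ∈ V, x ≠ y → 1 + ε ≤ ch x y) →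
  ∀ (v : H3) (R : ℝ), {x | x ∈ V ∧ ch v x ≤ R}.Finite

/-- the reflection data -/
def T_RFD : Prop := ∀ (K : Geo) (v v1 : H3) (f f' : Set (Set H3)) (a b c : Equiv.Perm H3) (p q : ℕ), IsGeo K →
  D01 K v v1 f f' a b c p q → Odd p → 3 ≤ p → 3 ≤ q → ∃ n0 n1 n2, RefD p (q / 2) v n0 n1 n2

/-! ## Classification of the reflection groups -/

/-- a properly discontinuous group of Lorentz maps: other base points -/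
def T_PRP : Prop := ∀ (v : H3) (n0 n1 n2 : V4), mk n0 n0 = -1 → mk n1 n1 = -1 → mk n2 n2 = -1 →
  (∀ R : ℝ, {g | g ∈ Gam n0 n1 n2 ∧ mk v.1 (g v.1) ≤ R}.Finite) → Proper (Gam n0 n1 n2)

/-- order of the product of two reflections -/
def T_ORR : Prop := ∀ (x y : V4) (k N : ℕ), mk x x = -1 → mk y y = -1 → 2 ≤ N → Nat.Coprime k N →
  (mk x y) ^ 2 = (Real.cos (k * Real.pi / N)) ^ 2 → ∀ m : ℕ, (refl x * refl y) ^ m = 1 ↔ N ∣ m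

/-- and conversely -/
def T_ANG : Prop := ∀ (x y : V4) (N : ℕ), mk x x = -1 → mk y y = -1 → 2 ≤ N → LinearIndependent ℝ ![x, y] →
  (∀ m : ℕ, (refl x * refl y) ^ m = 1 ↔ N ∣ m) → ∃ k : ℕ, 0 < k ∧ k < N ∧ Nat.Coprime k N ∧
    mk x y = Real.cos (k * Real.pi / N)

/-- the neighbour of a mirror in a dihedral group -/
def T_DPT : Prop := ∀ (x y : V4) (k N : ℕ), mk x x = -1 → mk y y = -1 → 3 ≤ N → 0 < k → k < N → Nat.Coprime k N →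
  mk x y = Real.cos (k * Real.pi / N) → ∃ t : V4, mk t t = -1 ∧ mk x t = Real.cos (Real.pi / N) ∧
    refl t ∈ Submonoid.closure {refl x, refl y} ∧
    Real.sin (Real.pi / N) • y = Real.sin (k * Real.pi / N) • t + Real.sin ((k - 1) * Real.pi / N) • x

/-- from `RefD` to `Tri` -/
def T_RTR : Prop := ∀ (p n : ℕ) (v : H3) (n0 n1 n2 : V4), 3 ≤ p → RefD p n v n0 n1 n2 →
  ∃ (t t' : V4) (k k' : ℕ), Tri p n0 t t' ∧ 0 ≤ CC p t t' ∧ 0 < k ∧ k < p ∧ 0 < k' ∧ k' < p ∧ Nat.Coprime k p ∧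
    Nat.Coprime k' p ∧ k ≠ k' ∧ k + k' ≠ p ∧ (mk n1 n2) ^ 2 = (fk p (CC p t t') k k') ^ 2

/-- Euclidean groups -/
def T_EUC : Prop := ∀ (p : ℕ) (n0 t t' : V4), Odd p → 5 ≤ p → Tri p n0 t t' → CC p t t' ≠ 1

/-- models -/
def T_MDH : Prop := ∀ (p : ℕ) (n0 t t' : V4), 3 ≤ p → Tri p n0 t t' → 1 < CC p t t' →
  Tri p nM (tM p) (hM p (CC p t t'))
def T_MDS : Prop := ∀ (p : ℕ) (n0 t t' : V4), 3 ≤ p → Tri p n0 t t' → 0 ≤ CC p t t' → CC p t t' < 1 →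
  Tri p nM (tM p) (sM p (CC p t t'))

/-- centres are separated, hyperbolic case -/
def T_HSP : Prop := ∀ (p : ℕ) (C : ℝ), 3 ≤ p → 1 < C → Tri p nM (tM p) (hM p C) →
  ∃ ε : ℝ, 0 < ε ∧ ∀ x ∈ PH p C, ∀ y ∈ PH p C, x ≠ y → 1 + ε ≤ mk x y

/-- new pairs of centres -/
def T_HPA : Prop := ∀ (p : ℕ) (C : ℝ), 3 ≤ p → 1 < C → Tri p nM (tM p) (hM p C) →
  ∀ x ∈ PH p C, ∀ y ∈ PH p C, x ≠ y → ∃ x' ∈ PH p C, ∃ y' ∈ PH p C, mk x' y' = c2 p + (1 - c2 p) * (mk x y) ^ 2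
def T_HPB : Prop := ∀ (p : ℕ) (C : ℝ), 3 ≤ p → 1 < C → Tri p nM (tM p) (hM p C) →
  ∀ x ∈ PH p C, ∀ y ∈ PH p C, x ≠ y → ∃ x' ∈ PH p C, ∃ y' ∈ PH p C,
    mk x' y' = 1 + (mk x y - 1) * ((1 - c2 p) * mk x y - c2 p) ^ 2

/-- lower bounds for the distances of centres -/
def T_HC3 : Prop := ∀ (p : ℕ) (C : ℝ), 7 ≤ p → 1 < C → Tri p nM (tM p) (hM p C) →
  ∀ x ∈ PH p C, ∀ y ∈ PH p C, x ≠ y → c2 p ≤ (1 - c2 p) * mk x y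
def T_HC4 : Prop := ∀ (C : ℝ), 1 < C → Tri 5 nM (tM 5) (hM 5 C) →
  ∀ x ∈ PH 5 C, ∀ y ∈ PH 5 C, x ≠ y → 1 + c2 5 ≤ (1 - c2 5) * mk x y

/-- two special pairs of centres -/
def T_HJV : Prop := ∀ (p : ℕ) (C : ℝ), 3 ≤ p → 1 < C → Tri p nM (tM p) (hM p C) →
  ∀ τ, τ = C * Real.sin (Real.pi / p) ^ 2 - Real.cos (Real.pi / p) ^ 2 →
  (∃ x ∈ PH p C, ∃ y ∈ PH p C, Real.sin (Real.pi / p) ^ 2 * mk x y =
    Real.sin (Real.pi / p) ^ 2 + 8 * τ ^ 2 * (1 + τ) * (c2 p + τ)) ∧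
  (∃ x ∈ PH p C, ∃ y ∈ PH p C, Real.sin (Real.pi / p) ^ 2 * mk x y =
    Real.sin (Real.pi / p) ^ 2 + (c2 p + τ) * (1 + 2 * τ) ^ 2) ∧ (o.1 ∈ PH p C ∧ aH C ∈ PH p C ∧ mk o.1 (aH C) = C)

/-- the result in the hyperbolic case -/
def T_HYP : Prop := ∀ (p : ℕ) (n0 t t' : V4), Tri p n0 t t' → 1 < CC p t t' →
  (7 ≤ p → -1 / 2 ≤ mk t t' ∧
    (1 + 2 * mk t t' = 0 ∨ 2 * c2 p - 1 ≤ 2 * (c2 p + mk t t') * (1 + 2 * mk t t') ^ 2) ∧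
    (mk t t' = 0 ∨ mk t t' = -1 ∨ 2 * c2 p - 1 ≤ 16 * (mk t t') ^ 2 * (1 + mk t t') * (c2 p + mk t t'))) ∧
  (p = 5 → 0 ≤ mk t t' ∧ (mk t t' = 0 ∨ c2 p ≤ 8 * (mk t t') ^ 2 * (1 + mk t t') * (c2 p + mk t t')))

/-- centres, spherical case -/
def T_SPA : Prop := ∀ (p : ℕ) (C : ℝ), 3 ≤ p → 0 ≤ C → C < 1 → Tri p nM (tM p) (sM p C) →
  (PS p C).Finite ∧ (∀ x ∈ PS p C, mk x x = -1 ∧ x 3 = 0) ∧ (e2 ∈ PS p C ∧ aS C ∈ PS p C ∧ -mk e2 (aS C) = C)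
def T_SPB : Prop := ∀ (p : ℕ) (C : ℝ), 3 ≤ p → 0 ≤ C → C < 1 → Tri p nM (tM p) (sM p C) →
  ∀ x ∈ PS p C, ∀ y ∈ PS p C, (∃ x' ∈ PS p C, ∃ y' ∈ PS p C, -mk x' y' = c2 p + (1 - c2 p) * (-mk x y) ^ 2) ∧
  (∃ x' ∈ PS p C, ∃ y' ∈ PS p C, -mk x' y' = 1 + (-mk x y - 1) * ((1 - c2 p) * (-mk x y) - c2 p) ^ 2)

/-- the result in the spherical case -/
def T_SPH : Prop := ∀ (p : ℕ) (n0 t t' : V4), Odd p → 5 ≤ p → Tri p n0 t t' → 0 ≤ CC p t t' → CC p t t' < 1 →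
  p = 5 ∧ 5 * (CC p t t') ^ 2 = 1

/-- trigonometry: which `k`, `k'` are possible -/
def T_KKA : Prop := ∀ (p k k' : ℕ) (C : ℝ), Odd p → 7 ≤ p → 0 < k → 0 < k' → k + k' < p → k < k' →
  c2 p ≤ (1 - c2 p) * C → fk p C k k' < 1 → k = 1 ∧ (k' = 2 ∨ k' = 3 ∨ k' = 4)

/-- the values of `f` -/
def T_FVL : Prop := ∀ (p : ℕ) (C τ : ℝ), 3 ≤ p → τ = C * Real.sin (Real.pi / p) ^ 2 - Real.cos (Real.pi / p) ^ 2 →
  fk p C 1 2 = Real.cos (Real.pi / p) * (2 * τ + 1) ∧ fk p C 1 3 = τ * (1 + 2 * c2 p) + 1 + c2 p ∧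
  fk p C 1 4 = Real.cos (Real.pi / p) * (4 * c2 p * τ + 2 * c2 p + 1)

/-- symmetries of `f` -/
def T_FSY : Prop := ∀ (p k k' : ℕ) (C : ℝ), 0 < p → k ≤ p → k' ≤ p → fk p C k k' = fk p C k' k ∧
  fk p C (p - k) (p - k') = fk p C k k' ∧ (1 ≤ C → 0 < k → k < p → k + k' = p → 1 ≤ fk p C k k') ∧
  (1 ≤ C → 0 < k → k < p → 0 < k' → k' < p → -1 < fk p C k k')

/-- solving the inequalities, `p ≥ 9` -/
def T_TAA : Prop := ∀ (p : ℕ) (τ : ℝ), 9 ≤ p → -1 / 2 ≤ τ → Real.cos (Real.pi / p) * (2 * τ + 1) < 1 →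
  (1 + 2 * τ = 0 ∨ 2 * c2 p - 1 ≤ 2 * (c2 p + τ) * (1 + 2 * τ) ^ 2) →
  (τ = 0 ∨ 2 * c2 p - 1 ≤ 16 * τ ^ 2 * (1 + τ) * (c2 p + τ)) → τ = -1 / 2 ∨ τ = 0

/-- solving the inequalities, `p = 7` -/
def T_TAB : Prop := ∀ τ : ℝ, -1 / 2 ≤ τ → Real.cos (Real.pi / 7) * (2 * τ + 1) < 1 →
  (1 + 2 * τ = 0 ∨ 2 * c2 7 - 1 ≤ 2 * (c2 7 + τ) * (1 + 2 * τ) ^ 2) →
  (τ = 0 ∨ 2 * c2 7 - 1 ≤ 16 * τ ^ 2 * (1 + τ) * (c2 7 + τ)) →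
  τ = -1 / 2 ∨ τ = 0 ∨ (Real.cos (Real.pi / 7) * (2 * τ + 1) = 1 / 2 ∧ 1 < τ * (1 + 2 * c2 7) + 1 + c2 7 ∧
    1 < Real.cos (Real.pi / 7) * (4 * c2 7 * τ + 2 * c2 7 + 1))

/-- `p = 5` -/
def T_TAC : Prop := (∀ τ : ℝ, 0 ≤ τ → Real.cos (Real.pi / 5) * (2 * τ + 1) < 1 →
  (τ = 0 ∨ c2 5 ≤ 8 * τ ^ 2 * (1 + τ) * (c2 5 + τ)) → τ = 0) ∧
  (∀ (C : ℝ) (k k' : ℕ), 1 + c2 5 ≤ (1 - c2 5) * C → 0 < k → 0 < k' → k + k' < 5 → k < k' → fk 5 C k k' < 1 →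
    k = 1 ∧ k' = 2) ∧
  (∀ (C : ℝ) (k k' : ℕ), 0 ≤ C → 5 * C ^ 2 = 1 → 0 < k → k < 5 → 0 < k' → k' < 5 → k ≠ k' → k + k' ≠ 5 →
    (fk 5 C k k') ^ 2 = 0 ∨ (fk 5 C k k') ^ 2 = 1 / 4)

/-- THE CLASSIFICATION -/
def T_CLA : Prop := ∀ (p n : ℕ) (v : H3) (n0 n1 n2 : V4), Odd p → 3 ≤ p → RefD p n v n0 n1 n2 →
  5 ≤ p ∧ (n = 2 ∨ n = p ∨ (n = 3 ∧ ¬ 3 ∣ p))

/-- THE NECESSARY CONDITIONS -/
def T_NEC2 : Prop := ∀ K : Geo, IsGeo K → Two K → Allowed (FS K) (DG K)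

/-! ## Coxeter groups -/

def T_REP : Prop := ∀ M al, Nrm M al → ∃ σ, Sg M al σ

/-- powers of the product of two reflections, nonnegativity of the coefficients -/
def T_DHG : Prop := ∀ (α β : V4) (m k : ℕ), mk α α = -1 → mk β β = -1 →
  ((2 ≤ m ∧ mk α β = Real.cos (Real.pi / m) ∧ k < m) ∨ 1 ≤ mk α β) →
  ∃ x y : ℝ, 0 ≤ x ∧ 0 ≤ y ∧ (alt (M := Module.End ℝ V4) (refl α) (refl β) k) α = x • α + y • β

/-- the theorem of Tits -/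
def T_TTS : Prop := ∀ M al σ, Nrm M al → Sg M al σ → ∀ (w : M.Group) (i : Fin 3),
  ¬ M.toCoxeterSystem.IsRightDescent w i → ∃ c : Fin 3 → ℝ, (∀ j, 0 ≤ c j) ∧ σ w (al i) = ∑ j, c j • al j

/-- elementary properties -/
def T_SGE : Prop := ∀ M al σ, Nrm M al → Sg M al σ → (∀ w, Lor (σ w)) ∧ (∀ w, σ w = 1 → w = 1) ∧
  (∀ w i, M.toCoxeterSystem.IsRightDescent w i → ∃ c : Fin 3 → ℝ, (∀ j, c j ≤ 0) ∧ σ w (al i) = ∑ j, c j • al j)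

/-- the chamber -/
def T_CHM : Prop := ∀ M al σ, Nrm M al → Sg M al σ → ∀ (w : M.Group) (x : V4), (∀ i, mk x (al i) ≤ 0) →
  (∀ i, mk (σ w x) (al i) ≤ 0) → σ w x = x ∧ w ∈ Subgroup.closure {s | ∃ i, mk x (al i) = 0 ∧ s = ss M i}

/-- the chamber of a subgroup of rank two -/
def T_CHT : Prop := ∀ M al σ, Nrm M al → Sg M al σ → ∀ (i j : Fin 3) (w : M.Group) (x : V4), i ≠ j →
  w ∈ Subgroup.closure {ss M i, ss M j} → mk x (al i) < 0 → mk x (al j) < 0 → σ w x = x → w = 1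

/-- dihedral subgroups -/
def T_DIF : Prop := ∀ M al σ, Nrm M al → Sg M al σ → ∀ i j : Fin 3, i ≠ j → M i j ≠ 0 →
  (Subgroup.closure {ss M i, ss M j} : Set M.Group).Finite ∧ (∀ m : ℕ, (ss M i * ss M j) ^ m = 1 ↔ M i j ∣ m)
def T_DII : Prop := ∀ M al σ, Nrm M al → Sg M al σ → ∀ i j : Fin 3, i ≠ j → M i j = 0 →
  ∀ m : ℕ, (ss M i * ss M j) ^ m = 1 ↔ m = 0

/-- points on different sides of a plane -/
def T_OPP : Prop := ∀ (x y : H3) (n : V4), mk n n = -1 → mk x.1 n ≤ 0 → 0 ≤ mk y.1 n →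
  1 + (mk x.1 n) ^ 2 ≤ (ch x y) ^ 2

/-- discreteness -/
def T_DSW : Prop := ∀ M al σ, Nrm M al → Sg M al σ → ∀ (i j k : Fin 3), i ≠ j → i ≠ k → j ≠ k → M i j ≠ 0 →
  ∀ x y : H3, mk x.1 (al i) = 0 → mk x.1 (al j) = 0 → mk x.1 (al k) < 0 → (∀ l, mk y.1 (al l) ≤ 0) →
  ∃ ε : ℝ, 0 < ε ∧ ∀ w : M.Group, σ w y.1 ≠ x.1 → 1 + ε ≤ mk x.1 (σ w y.1)

/-- the action on `H3` -/
def T_PSI : Prop := ∀ M al σ, Nrm M al → Sg M al σ → ∃ ψ, Ps M σ ψ ∧ Function.Injective ψ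

/-- intersections of subgroups -/
def T_LII : Prop := ∀ (x y z : V4) (g : Module.End ℝ V4), mk x x = -1 → mk y y = -1 → mk z z = -1 →
  LinearIndependent ℝ ![x, y, z] → (∀ u w : V4, mk (g u) (g w) = mk u w) → g ∈ Submonoid.closure {refl x, refl y} →
  g ∈ Submonoid.closure {refl y, refl z} → g = 1 ∨ g = refl y

/-- normals, for class `{0, 1}`: the base point is `o` -/
def T_NRB : Prop := ∀ (M : CoxeterMatrix (Fin 3)) (i j k : Fin 3), i ≠ j → i ≠ k → j ≠ k → M i j ≠ 0 →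
  ∃ al, Nrm M al ∧ mk o.1 (al i) = 0 ∧ mk o.1 (al j) = 0 ∧ mk o.1 (al k) < 0

/-- normals, for class `{1, 2}`: many base points `v'` -/
def T_NRA : Prop := ∀ (M : CoxeterMatrix (Fin 3)) (i j k : Fin 3), i ≠ j → i ≠ k → j ≠ k → M i k ≠ 0 → M j k ≠ 0 →
  ∃ al, Nrm M al ∧ mk o.1 (al i) = 0 ∧ mk o.1 (al k) = 0 ∧ mk o.1 (al j) < 0 ∧
    ∃ v' : H3, mk v'.1 (al j) = 0 ∧ mk v'.1 (al k) = 0 ∧ mk v'.1 (al i) < 0 ∧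
      mk v'.1 (al i) ≠ mk o.1 (al j)

/-- a reflection and two simple reflections give a B-structure -/
def T_BWS : Prop := ∀ M al σ ψ, Nrm M al → Sg M al σ → Ps M σ ψ → Function.Injective ψ →
  ∀ (i j k l : Fin 3) (w : M.Group) (v : H3), i ≠ j → i ≠ k → j ≠ k → M i j ≠ 0 →
  mk v.1 (al i) = 0 → mk v.1 (al j) = 0 → mk v.1 (al k) < 0 →
  ∀ r : M.Group, r = w * ss M l * w⁻¹ → Subgroup.closure {r, ss M i, ss M j} = ⊤ →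
  mk v.1 (σ w (al l)) ≠ 0 → LinearIndependent ℝ ![σ w (al l), al i, al j] →
  (∀ g ∈ Subgroup.closure {ss M i, ss M j}, σ g (σ w (al l)) = σ w (al l) → g = 1) →
  BStr v (ψ r) (ψ (ss M i)) (ψ (ss M j))

/-- three simple reflections give an A-structure -/
def T_AWS : Prop := ∀ M al σ ψ, Nrm M al → Sg M al σ → Ps M σ ψ → Function.Injective ψ →
  ∀ (i j k : Fin 3) (v v' : H3), i ≠ j → i ≠ k → j ≠ k → M i k ≠ 0 → M j k ≠ 0 → (M i k ≠ 2 ∨ M j k ≠ 2) →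
  mk v.1 (al i) = 0 → mk v.1 (al k) = 0 → mk v.1 (al j) < 0 →
  mk v'.1 (al j) = 0 → mk v'.1 (al k) = 0 → mk v'.1 (al i) < 0 →
  AStr v v' (ψ (ss M i)) (ψ (ss M j)) (ψ (ss M k))

/-! ## The polyhedra -/

/-- incidences, class `{0, 1}` -/
def T_BEA : Prop := ∀ v r a b, BStr v r a b →
  (∀ g ∈ G3 r a b, g '' {v, r v} = {v, r v} → g = 1 ∨ g = r) ∧
  {e | e ∈ fc r a {v, r v} ∧ v ∈ e} = {{v, r v}, {v, a (r v)}} ∧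
  {e | e ∈ fc r b {v, r v} ∧ v ∈ e} = {{v, r v}, {v, b (r v)}} ∧
  r v ≠ a (r v) ∧ r v ≠ b (r v) ∧ a (r v) ≠ b (r v) ∧
  (∀ g ∈ G3 r a b, {v, r v} ∈ (Set.image g) '' fc r a {v, r v} → (Set.image g) '' fc r a {v, r v} = fc r a {v, r v}) ∧
  (∀ g ∈ G3 r a b, {v, r v} ∈ (Set.image g) '' fc r b {v, r v} → (Set.image g) '' fc r b {v, r v} = fc r b {v, r v})
def T_BEB : Prop := ∀ v r a b, BStr v r a b → IsGeo (KB v r a b)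
def T_BEC : Prop := ∀ v r a b, BStr v r a b → ∀ g ∈ G3 r a b, Sy (KB v r a b) g
/-- at most two orbits -/
def T_BED : Prop := ∀ v r a b, BStr v r a b → ∀ Φ, Fl (KB v r a b) Φ → ∃ g ∈ G3 r a b,
  Φ = act g (v, {v, r v}, fc r a {v, r v}) ∨ Φ = act g (v, {v, r v}, fc r b {v, r v})
/-- sizes -/
def T_BEE : Prop := ∀ v r a b, BStr v r a b → FS (KB v r a b) = {oE (r * a), oE (r * b)} ∧
  DG (KB v r a b) = {2 * oE (a * b)}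
/-- two orbits -/
def T_BEF : Prop := ∀ v r a b, BStr v r a b →
  (oE (r * a) ≠ oE (r * b) ∨ ch (r v) (a (r v)) ≠ ch (r v) (b (r v))) → Two (KB v r a b)

/-- incidences, class `{1, 2}` -/
def T_AEA : Prop := ∀ v v' a b c, AStr v v' a b c → v ≠ v' ∧
  (∀ g ∈ G3 a b c, g '' {v, v'} = {v, v'} → g = 1 ∨ g = c) ∧
  {e | e ∈ fc a b {v, v'} ∧ v ∈ e} = {{v, v'}, {v, a v'}} ∧
  {e | e ∈ fc a b {v, v'} ∧ v' ∈ e} = {{v, v'}, {b v, v'}} ∧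
  a v' ≠ v' ∧ b v ≠ v ∧ fc a b {v, v'} ≠ (Set.image c) '' fc a b {v, v'} ∧
  (∀ g ∈ G3 a b c, {v, v'} ∈ (Set.image g) '' fc a b {v, v'} → (Set.image g) '' fc a b {v, v'} = fc a b {v, v'} ∨
    (Set.image g) '' fc a b {v, v'} = (Set.image c) '' fc a b {v, v'})
def T_AEB : Prop := ∀ v v' a b c, AStr v v' a b c → IsGeo (KA v v' a b c)
def T_AEC : Prop := ∀ v v' a b c, AStr v v' a b c → ∀ g ∈ G3 a b c, Sy (KA v v' a b c) g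
def T_AED : Prop := ∀ v v' a b c, AStr v v' a b c → ∀ Φ, Fl (KA v v' a b c) Φ → ∃ g ∈ G3 a b c,
  Φ = act g (v, {v, v'}, fc a b {v, v'}) ∨ Φ = act g (v', {v, v'}, fc a b {v, v'})
def T_AEE : Prop := ∀ v v' a b c, AStr v v' a b c → FS (KA v v' a b c) = {2 * oE (a * b)} ∧
  DG (KA v v' a b c) = {oE (a * c), oE (b * c)}
def T_AEF : Prop := ∀ v v' a b c, AStr v v' a b c →
  (oE (a * c) ≠ oE (b * c) ∨ ch v' (a v') ≠ ch v (b v)) → Two (KA v v' a b c)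

/-! ## Existence -/

/-- different face sizes -/
def T_XAA : Prop := ∀ (p p' : ℕ∞) (n : ℕ), 3 ≤ p → 3 ≤ p' → p ≠ p' → 2 ≤ n →
  ∃ K, IsGeo K ∧ Two K ∧ FS K = {p, p'} ∧ DG K = {((2 * n : ℕ) : ℕ∞)}
/-- even or infinite faces -/
def T_XBB : Prop := ∀ (p : ℕ∞) (q q' : ℕ), EvTop p → 4 ≤ p → 2 ≤ q → 2 ≤ q' → (3 ≤ q ∨ 3 ≤ q') →
  ∃ K, IsGeo K ∧ Two K ∧ FS K = {p} ∧ DG K = {(q : ℕ∞), (q' : ℕ∞)}
/-- odd faces, degree 4 -/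
def T_XS1 : Prop := ∀ p : ℕ, Odd p → 5 ≤ p → ∃ K, IsGeo K ∧ Two K ∧ FS K = {(p : ℕ∞)} ∧ DG K = {((4 : ℕ) : ℕ∞)}
/-- odd faces, degree 6 -/
def T_XS2 : Prop := ∀ p : ℕ, Odd p → 5 ≤ p → ¬ 3 ∣ p → ∃ K, IsGeo K ∧ Two K ∧ FS K = {(p : ℕ∞)} ∧ DG K = {((6 : ℕ) : ℕ∞)}
/-- odd faces, degree `2 p` -/
def T_XS3 : Prop := ∀ p : ℕ, Odd p → 5 ≤ p → ∃ K, IsGeo K ∧ Two K ∧ FS K = {(p : ℕ∞)} ∧ DG K = {((2 * p : ℕ) : ℕ∞)}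

/-- THE EXISTENCE -/
def T_EXI : Prop := ∀ A B, Allowed A B → ∃ K, IsGeo K ∧ Two K ∧ FS K = A ∧ DG K = B

/-- THE THEOREM -/
def T_MAIN2 : Prop := Main

end Pool.Agent.H39.TO
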