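import Mathlib
import Pool.Agent.H39.TO.Targets

/-!
# Two-orbit polyhedra in hyperbolic 3-space: assembly
-/

namespace Pool.Agent.H39.TO

open Pool.Agent.H57.CP

theorem main_asm (hA : T_LA) (hB : T_LBT) (hC : T_LCT) (hD : T_LD) (hE : T_LET) (hN : T_NEC2) (hX : T_EXI) :
    T_MAIN2 := by
  intro A B
  constructor
  · rintro ⟨P, i1, i2, rk, β, h1, h2, h3, rfl, rfl⟩
    obtain ⟨e1, e2⟩ := hC P rk β h1 h2
    have := hN (Kof rk β) (hA P rk β h1 h2) (hB P rk β h1 h2 h3)
    rwa [e1, e2] at this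
  · intro h
    obtain ⟨K, k1, k2, rfl, rfl⟩ := hX A B h
    obtain ⟨d1, d2⟩ := hD K k1
    obtain ⟨e1, e2, e3⟩ := hE K k1
    exact ⟨Cell K, inferInstance, inferInstance, Cell.rk, Cell.real o, d1, d2, e1 k2, e2, e3⟩

/-- existence -/
theorem exi (hA : T_XAA) (hB : T_XBB) (h1 : T_XS1) (h2 : T_XS2) (h3 : T_XS3) : T_EXI := by
  intro A B h
  rcases h with ⟨p, p', n, a, b, c, d, rfl, rfl⟩ | ⟨p, q, q', a, b, c, d, e, rfl, rfl⟩ |
    ⟨p, q, a, rfl, rfl, b⟩
  · exact hA p p' n a b c d
  · exact hB p q q' a b c d (by omega)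
  · rcases b with ⟨b, b'⟩ | ⟨m, rfl, m1, m2, m3⟩
    · have := hB p q q b b' (by omega) (by omega) (Or.inl a)
      simpa using this
    · rcases m3 with rfl | rfl | ⟨rfl, m3⟩
      · exact h1 m m1 m2
      · exact h3 m m1 m2
      · exact h2 m m1 m2 m3

theorem nec2 (hA : T_FLA) (hS : T_SIN) (hM : T_SML) (hQ : T_QFI) (hC : T_CLS) (hP : T_PAR2) (hO : T_OOO) (hN : T_NEC)
    (hE : T_NET) (hD : T_D0A) (hR : T_RFD) (hL : T_CLA) : T_NEC2 := by
  intro K hK hT
  obtain ⟨⟨p, p', hF⟩, ⟨q, q', hG⟩, s1, s2⟩ := hS K hK hT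
  obtain ⟨m1, m2, m3⟩ := hM K hK
  obtain ⟨c1, c2⟩ := hC K hK hT
  obtain ⟨p1, p2⟩ := hP K hK hT
  have fin : ∀ n ∈ DG K, ∃ m : ℕ, n = m := by
    intro n hn
    obtain ⟨m, hm⟩ := ENat.ne_top_iff_exists.mp (hQ K hK hT n hn)
    exact ⟨m, hm.symm⟩
  have ex : ∀ i, In K i → ¬ Out K i := by
    intro i hi ho
    obtain ⟨Φ, Ψ, hΦ, hΨ, hn⟩ := hT.two
    obtain ⟨⟨a, a1, _⟩, ⟨b, b1, _⟩, ⟨c, c1, _⟩⟩ := hA K hK Φ hΦ
    fin_cases i
    · exact ho Φ a a1 (hi Φ a a1)
    · exact ho Φ b b1 (hi Φ b b1)
    · exact ho Φ c c1 (hi Φ c c1)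
  by_cases hpp : p = p'
  · subst hpp
    have hF' : FS K = {p} := by simpa using hF
    have p3 : 3 ≤ p := m1 p (by rw [hF']; rfl)
    have par : ∀ m : ℕ, p = m → Odd m → (In K 0 ↔ In K 1) := by
      intro m hm ho
      exact p1 m (by rw [hF', hm]; rfl) ho
    have p4 : EvTop p → 4 ≤ p := by
      rintro (h | ⟨m, h⟩)
      · rw [h]; exact le_top
      · subst h
        have : 3 ≤ 2 * m := by exact_mod_cast p3
        have h4 : 4 ≤ 2 * m := by omega
        exact_mod_cast h4
    by_cases hqq : q = q'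
    · subst hqq
      have hG' : DG K = {q} := by simpa using hG
      obtain ⟨a, rfl⟩ := fin q (by rw [hG']; rfl)
      have a2 : 2 ≤ a := by exact_mod_cast m2 a (by rw [hG']; rfl)
      have a3 : 3 ≤ a := by
        rcases Nat.lt_or_ge a 3 with h | h
        · exfalso
          have h2 : a = 2 := by omega
          apply m3
          rw [hG', h2]
          rfl
        · exact h
      right; right
      refine ⟨p, a, a3, hF', hG', ?_⟩
      by_cases hev : EvTop p
      · exact Or.inl ⟨hev, p4 hev⟩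
      · right
        have hpt : p ≠ ⊤ := fun h => hev (Or.inl h)
        obtain ⟨m, rfl⟩ := ENat.ne_top_iff_exists.mp hpt
        have hm : Odd m := by
          rcases Nat.even_or_odd m with ⟨k, hk⟩ | h
          · exact absurd (Or.inr ⟨k, by rw [hk]; norm_num [two_mul]⟩) hev
          · exact h
        have hm3 : 3 ≤ m := by exact_mod_cast p3
        have hpar := par m rfl hm
        refine ⟨m, rfl, hm, ?_⟩
        rcases c1 0 with i0 | o0
        · have i1 := hpar.mp i0
          have o2 : Out K 2 := by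
            rcases c1 2 with i2 | o2
            · exfalso
              obtain ⟨i, hi⟩ := c2
              fin_cases i
              · exact ex 0 i0 hi
              · exact ex 1 i1 hi
              · exact ex 2 i2 hi
            · exact o2
          obtain ⟨v, v1, f, f', a', b', c', hd⟩ := hD K m a hK hT i0 i1 o2 hF' hG'
          obtain ⟨n0, n1, n2, hr⟩ := hR K v v1 f f' a' b' c' m a hK hd hm hm3 a3
          obtain ⟨h5, h6⟩ := hL m (a / 2) v n0 n1 n2 hm hm3 hr
          have h2 := hd.q2
          refine ⟨h5, ?_⟩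
          rcases h6 with h6 | h6 | ⟨h6, h7⟩
          · left; omega
          · right; left; omega
          · right; right; exact ⟨by omega, h7⟩
        · exfalso
          have o1 : Out K 1 := by
            rcases c1 1 with i1 | o1
            · exact absurd o0 (ex 0 (hpar.mpr i1))
            · exact o1
          rcases c1 2 with i2 | o2
          · exact hE K m hK hT o0 o1 i2 hF' hm
          · have hchi := hO K hK hT o0 o1 o2
            have hty : Ty K (m : ℕ∞) (a : ℕ∞) := by
              refine ⟨fun f hf => ?_, fun x hx => ?_⟩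
              · have : (vts f).encard ∈ FS K := ⟨f, hf, rfl⟩
                rw [hF'] at this
                exact this
              · have : (eds K x).encard ∈ DG K := ⟨x, hx, rfl⟩
                rw [hG'] at this
                exact this
            obtain ⟨_, _, h | ⟨b, _, h, _⟩⟩ := hN K m a hK hchi hty
            · exact hpt h
            · have h' : m = 2 * b := by exact_mod_cast h
              obtain ⟨k, hk⟩ := hm
              omega
    · have nd : ¬ ∃ r, DG K = {r} := by
        rintro ⟨r, hr⟩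
        rw [hG] at hr
        have e1 : q ∈ ({r} : Set ℕ∞) := by rw [← hr]; exact Or.inl rfl
        have e2 : q' ∈ ({r} : Set ℕ∞) := by rw [← hr]; exact Or.inr rfl
        exact hqq (e1.trans e2.symm)
      have n0 : ¬ In K 0 := fun h => nd (s2 (Or.inl h))
      have n1 : ¬ Out K 1 := fun h => nd (s2 (Or.inr (Or.inl h)))
      have i1 : In K 1 := (c1 1).resolve_right n1
      obtain ⟨a, rfl⟩ := fin q (by rw [hG]; exact Or.inl rfl)
      obtain ⟨b, rfl⟩ := fin q' (by rw [hG]; exact Or.inr rfl)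
      have a2 : 2 ≤ a := by exact_mod_cast m2 a (by rw [hG]; exact Or.inl rfl)
      have b2 : 2 ≤ b := by exact_mod_cast m2 b (by rw [hG]; exact Or.inr rfl)
      have hev : EvTop p := by
        by_cases hpt : p = ⊤
        · exact Or.inl hpt
        · obtain ⟨m, rfl⟩ := ENat.ne_top_iff_exists.mp hpt
          rcases Nat.even_or_odd m with ⟨k, hk⟩ | h
          · exact Or.inr ⟨k, by rw [hk]; norm_num [two_mul]⟩
          · exact absurd ((par m rfl h).mpr i1) n0
      right; left
      exact ⟨p, a, b, hev, p4 hev, a2, b2, fun h => hqq (by rw [h]), hF', hG⟩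
  · have nf : ¬ ∃ r, FS K = {r} := by
      rintro ⟨r, hr⟩
      rw [hF] at hr
      have e1 : p ∈ ({r} : Set ℕ∞) := by rw [← hr]; exact Or.inl rfl
      have e2 : p' ∈ ({r} : Set ℕ∞) := by rw [← hr]; exact Or.inr rfl
      exact hpp (e1.trans e2.symm)
    have n0 : ¬ Out K 0 := fun h => nf (s1 (Or.inl h))
    have n1 : ¬ Out K 1 := fun h => nf (s1 (Or.inr (Or.inl h)))
    have n2 : ¬ In K 2 := fun h => nf (s1 (Or.inr (Or.inr h)))
    have i0 : In K 0 := (c1 0).resolve_right n0
    have i1 : In K 1 := (c1 1).resolve_right n1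
    obtain ⟨r, hr⟩ := s2 (Or.inl i0)
    obtain ⟨m, rfl⟩ := fin r (by rw [hr]; rfl)
    have m2' : 2 ≤ m := by exact_mod_cast m2 m (by rw [hr]; rfl)
    have mne : m ≠ 2 := by
      intro h
      apply m3
      rw [hr, h]
      rfl
    have hev : Even m := by
      rcases Nat.even_or_odd m with h | h
      · exact h
      · exact absurd ((p2 m (by rw [hr]; rfl) h).mp i1) n2
    obtain ⟨k, hk⟩ := hev
    left
    refine ⟨p, p', k, m1 p (by rw [hF]; exact Or.inl rfl), m1 p' (by rw [hF]; exact Or.inr rfl), hpp, by omega,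
      hF, ?_⟩
    rw [hr, hk, two_mul]

end Pool.Agent.H39.TO
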