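import Pool.Agent.H39.TO.K1

open MeasureTheory Filter Topology

namespace Pool.Agent.H39.TO
open Pool.Agent.H84.TO

theorem beta_real {a b : ℝ} (ha : 0 < a) (hb : 0 < b) :
    IntegrableOn (fun s : ℝ => s ^ (a - 1) * (1 - s) ^ (b - 1)) (Set.Ioo 0 1) ∧
      ∫ s in Set.Ioo (0 : ℝ) 1, s ^ (a - 1) * (1 - s) ^ (b - 1) = bt a b := by
  have ha' : 0 < (a : ℂ).re := by simpa using ha
  have hb' : 0 < (b : ℂ).re := by simpa using hb
  have hc := Complex.betaIntegral_convergent ha' hb'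
  rw [intervalIntegrable_iff_integrableOn_Ioc_of_le zero_le_one] at hc
  have hc' := hc.mono_set Set.Ioo_subset_Ioc_self
  have he : ∀ s ∈ Set.Ioo (0 : ℝ) 1, (s : ℂ) ^ ((a : ℂ) - 1) * (1 - (s : ℂ)) ^ ((b : ℂ) - 1) =
      ((s ^ (a - 1) * (1 - s) ^ (b - 1) : ℝ) : ℂ) := by
    intro s hs
    have h1 : (0 : ℝ) ≤ s := hs.1.le
    have h2 : (0 : ℝ) ≤ 1 - s := by linarith [hs.2]
    rw [Complex.ofReal_mul, Complex.ofReal_cpow h1, Complex.ofReal_cpow h2]
    push_cast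
    rfl
  refine ⟨?_, ?_⟩
  · have h : IntegrableOn (fun s : ℝ => ‖(s : ℂ) ^ ((a : ℂ) - 1) *
        (1 - (s : ℂ)) ^ ((b : ℂ) - 1)‖) (Set.Ioo 0 1) := hc'.norm
    refine h.congr_fun (fun s hs => ?_) measurableSet_Ioo
    change ‖(s : ℂ) ^ ((a : ℂ) - 1) * (1 - (s : ℂ)) ^ ((b : ℂ) - 1)‖ = _
    rw [he s hs, Complex.norm_real]
    have h1 : (0 : ℝ) ≤ s := hs.1.le
    have h2 : (0 : ℝ) ≤ 1 - s := by linarith [hs.2]
    exact Real.norm_of_nonneg (mul_nonneg (Real.rpow_nonneg h1 _) (Real.rpow_nonneg h2 _))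
  · have h1 : ((∫ s in Set.Ioo (0 : ℝ) 1, s ^ (a - 1) * (1 - s) ^ (b - 1) : ℝ) : ℂ)
        = Complex.betaIntegral a b := by
      rw [Complex.betaIntegral, intervalIntegral.integral_of_le zero_le_one,
        integral_Ioc_eq_integral_Ioo, setIntegral_congr_fun measurableSet_Ioo he]
      exact integral_ofReal.symm
    have h2 := Complex.Gamma_mul_Gamma_eq_betaIntegral ha' hb'
    rw [← h1, ← Complex.ofReal_add, Complex.Gamma_ofReal, Complex.Gamma_ofReal,
      Complex.Gamma_ofReal, ← Complex.ofReal_mul, ← Complex.ofReal_mul] at h2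
    have h3 := Complex.ofReal_injective h2
    unfold bt
    rw [eq_div_iff (Real.Gamma_pos_of_pos (add_pos ha hb)).ne', h3, mul_comm]

theorem sq_image : (fun x : ℝ => x ^ 2) '' Set.Ioo 0 1 = Set.Ioo 0 1 := by
  ext t
  constructor
  · rintro ⟨x, hx, rfl⟩
    exact ⟨pow_pos hx.1 2, pow_lt_one₀ hx.1.le hx.2 (by norm_num)⟩
  · intro ht
    refine ⟨Real.sqrt t, ⟨Real.sqrt_pos.mpr ht.1, ?_⟩, Real.sq_sqrt ht.1.le⟩
    rw [Real.sqrt_lt' one_pos]
    simpa using ht.2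

theorem half_form (p : ℕ) {q : ℝ} (hq : 0 < q) :
    IntegrableOn (fun x : ℝ => x ^ (2 * p) * (1 - x ^ 2) ^ (q - 1)) (Set.Ioo 0 1) ∧
      2 * ∫ x in Set.Ioo (0 : ℝ) 1, x ^ (2 * p) * (1 - x ^ 2) ^ (q - 1) = bt (p + 1 / 2) q := by
  have ha : (0 : ℝ) < (p : ℝ) + 1 / 2 := by positivity
  obtain ⟨h1, h2⟩ := beta_real ha hq
  have hder : ∀ x ∈ Set.Ioo (0 : ℝ) 1,
      HasDerivWithinAt (fun x : ℝ => x ^ 2) (2 * x) (Set.Ioo 0 1) x := by
    intro x _
    have := (hasDerivAt_pow 2 x).hasDerivWithinAt (s := Set.Ioo (0 : ℝ) 1)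
    simpa using this
  have hinj : Set.InjOn (fun x : ℝ => x ^ 2) (Set.Ioo 0 1) := by
    intro x hx y hy hxy
    exact (pow_left_inj₀ hx.1.le hy.1.le (by norm_num)).mp hxy
  have he : ∀ x ∈ Set.Ioo (0 : ℝ) 1, |2 * x| • ((x ^ 2) ^ ((p : ℝ) + 1 / 2 - 1) *
      (1 - x ^ 2) ^ (q - 1)) = 2 * (x ^ (2 * p) * (1 - x ^ 2) ^ (q - 1)) := by
    intro x hx
    have hx0 : 0 < x := hx.1
    rw [abs_of_pos (by positivity), smul_eq_mul, ← Real.rpow_natCast x 2, ← Real.rpow_mul hx0.le]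
    have h3 : x * x ^ (((2 : ℕ) : ℝ) * ((p : ℝ) + 1 / 2 - 1)) = x ^ (2 * p) := by
      have h4 : ((2 : ℕ) : ℝ) * ((p : ℝ) + 1 / 2 - 1) = ((2 * p : ℕ) : ℝ) - 1 := by
        push_cast; ring
      rw [h4, Real.rpow_sub_one hx0.ne', Real.rpow_natCast]
      field_simp
    rw [← h3]
    ring
  have hA := integrableOn_image_iff_integrableOn_abs_deriv_smul measurableSet_Ioo hder hinj
    (fun s : ℝ => s ^ ((p : ℝ) + 1 / 2 - 1) * (1 - s) ^ (q - 1))
  have hB := integral_image_eq_integral_abs_deriv_smul measurableSet_Ioo hder hinj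
    (fun s : ℝ => s ^ ((p : ℝ) + 1 / 2 - 1) * (1 - s) ^ (q - 1))
  rw [sq_image] at hA hB
  rw [h2, setIntegral_congr_fun measurableSet_Ioo he, integral_const_mul] at hB
  refine ⟨?_, hB.symm⟩
  have hC := (hA.mp h1).congr_fun he measurableSet_Ioo
  have hD := hC.const_mul (1 / 2 : ℝ)
  refine hD.congr (ae_of_all _ fun x => ?_)
  ring

theorem full_form (p : ℕ) {q : ℝ} (hq : 0 < q) :
    IntegrableOn (fun x : ℝ => x ^ (2 * p) * (1 - x ^ 2) ^ (q - 1)) (Set.Ioo (-1) 1) ∧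
      ∫ x in Set.Ioo (-1 : ℝ) 1, x ^ (2 * p) * (1 - x ^ 2) ^ (q - 1) = bt (p + 1 / 2) q := by
  obtain ⟨h1, h2⟩ := half_form p hq
  have hev : ∀ x : ℝ, (-x) ^ (2 * p) * (1 - (-x) ^ 2) ^ (q - 1) =
      x ^ (2 * p) * (1 - x ^ 2) ^ (q - 1) := by
    intro x
    rw [neg_sq, Even.neg_pow (even_two_mul p)]
  have hi1 : IntervalIntegrable (fun x : ℝ => x ^ (2 * p) * (1 - x ^ 2) ^ (q - 1)) volume 0 1 := by
    rw [intervalIntegrable_iff_integrableOn_Ioc_of_le zero_le_one,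
      integrableOn_Ioc_iff_integrableOn_Ioo]
    exact h1
  have hi2 : IntervalIntegrable (fun x : ℝ => x ^ (2 * p) * (1 - x ^ 2) ^ (q - 1))
      volume (-1) 0 := by
    have h := ((IntervalIntegrable.iff_comp_neg (by simp)).mp hi1).symm
    simp only [neg_zero] at h
    exact h.congr (fun x _ => hev x)
  have hi := hi2.trans hi1
  refine ⟨?_, ?_⟩
  · rw [intervalIntegrable_iff_integrableOn_Ioc_of_le (by norm_num),
      integrableOn_Ioc_iff_integrableOn_Ioo] at hi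
    exact hi
  · have h3 : ∫ x in Set.Ioo (-1 : ℝ) 1, x ^ (2 * p) * (1 - x ^ 2) ^ (q - 1)
        = ∫ x in (-1 : ℝ)..1, x ^ (2 * p) * (1 - x ^ 2) ^ (q - 1) := by
      rw [intervalIntegral.integral_of_le (by norm_num), integral_Ioc_eq_integral_Ioo]
    have h4 : ∫ x in Set.Ioo (0 : ℝ) 1, x ^ (2 * p) * (1 - x ^ 2) ^ (q - 1)
        = ∫ x in (0 : ℝ)..1, x ^ (2 * p) * (1 - x ^ 2) ^ (q - 1) := by
      rw [intervalIntegral.integral_of_le (by norm_num), integral_Ioc_eq_integral_Ioo]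
    have h5 : ∫ x in (-1 : ℝ)..0, x ^ (2 * p) * (1 - x ^ 2) ^ (q - 1)
        = ∫ x in (0 : ℝ)..1, x ^ (2 * p) * (1 - x ^ 2) ^ (q - 1) := by
      have := intervalIntegral.integral_comp_neg (a := (0 : ℝ)) (b := 1)
        (fun x : ℝ => x ^ (2 * p) * (1 - x ^ 2) ^ (q - 1))
      simp only [hev, neg_zero] at this
      exact this.symm
    rw [h3, ← intervalIntegral.integral_add_adjacent_intervals hi2 hi1, h5, ← h4, ← h2]
    ring

theorem tanh_sig (y : ℝ) : Real.tanh (y / 2) = 2 * Real.sigmoid y - 1 := by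
  rw [Real.tanh_eq_sinh_div_cosh, sig_eq, Real.exp_sub, exp_Lc, two_cosh, Real.sinh_eq,
    Real.cosh_eq]
  have h3 := Real.exp_pos (y / 2)
  have h4 := Real.exp_pos (-(y / 2))
  field_simp
  ring

theorem bet : T_BET := by
  intro p q hq
  obtain ⟨h1, h2⟩ := full_form p hq
  have hder : ∀ y ∈ (Set.univ : Set ℝ),
      HasDerivWithinAt (fun y => 2 * Real.sigmoid y - 1)
        (2 * (Real.sigmoid y * (1 - Real.sigmoid y))) Set.univ y :=
    fun y _ => (((deriv_sig y).const_mul 2).sub_const 1).hasDerivWithinAt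
  have himg : (fun y => 2 * Real.sigmoid y - 1) '' Set.univ = Set.Ioo (-1) 1 := by
    ext t
    constructor
    · rintro ⟨y, _, rfl⟩
      have a1 := Real.sigmoid_pos y
      have a2 := Real.sigmoid_lt_one y
      exact ⟨by simp only; linarith, by simp only; linarith⟩
    · intro ht
      have h3 : (t + 1) / 2 ∈ Set.range Real.sigmoid := by
        rw [Real.range_sigmoid]
        exact ⟨by linarith [ht.1], by linarith [ht.2]⟩
      obtain ⟨y, hy⟩ := h3
      refine ⟨y, Set.mem_univ _, ?_⟩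
      simp only [hy]
      ring
  have hinj : Set.InjOn (fun y => 2 * Real.sigmoid y - 1) Set.univ := by
    intro a _ b _ hab
    apply Real.sigmoid_injective
    simp only at hab
    linarith
  have he : ∀ y ∈ (Set.univ : Set ℝ), |2 * (Real.sigmoid y * (1 - Real.sigmoid y))| •
      ((2 * Real.sigmoid y - 1) ^ (2 * p) * (1 - (2 * Real.sigmoid y - 1) ^ 2) ^ (q - 1))
      = 1 / 2 * (Real.tanh (y / 2) ^ (2 * p) * (Real.cosh (y / 2) ^ 2) ^ (-q)) := by
    intro y _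
    rw [← tanh_sig]
    have h3 : Real.sigmoid y * (1 - Real.sigmoid y) = (Real.cosh (y / 2) ^ 2)⁻¹ / 4 := by
      have : Real.sigmoid y * (1 - Real.sigmoid y) = (1 - (2 * Real.sigmoid y - 1) ^ 2) / 4 := by
        ring
      rw [this, ← tanh_sig, Real.tanh_eq_sinh_div_cosh]
      have h5 := Real.cosh_pos (y / 2)
      have h6 := Real.cosh_sq (y / 2)
      field_simp
      linarith
    have h4 : 1 - Real.tanh (y / 2) ^ 2 = (Real.cosh (y / 2) ^ 2)⁻¹ := by
      rw [Real.tanh_eq_sinh_div_cosh]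
      have h5 := Real.cosh_pos (y / 2)
      have h6 := Real.cosh_sq (y / 2)
      field_simp
      linarith
    have h7 : 0 < Real.cosh (y / 2) ^ 2 := by
      have := Real.cosh_pos (y / 2)
      positivity
    rw [h3, h4, abs_of_pos (by positivity), smul_eq_mul, Real.inv_rpow h7.le,
      ← Real.rpow_neg h7.le, neg_sub]
    have h8 : (Real.cosh (y / 2) ^ 2) ^ (1 - q) =
        (Real.cosh (y / 2) ^ 2) * (Real.cosh (y / 2) ^ 2) ^ (-q) := by
      rw [sub_eq_add_neg, Real.rpow_add h7, Real.rpow_one]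
    rw [h8]
    field_simp
    norm_num
  have hA := integrableOn_image_iff_integrableOn_abs_deriv_smul MeasurableSet.univ hder hinj
    (fun x : ℝ => x ^ (2 * p) * (1 - x ^ 2) ^ (q - 1))
  have hB := integral_image_eq_integral_abs_deriv_smul MeasurableSet.univ hder hinj
    (fun x : ℝ => x ^ (2 * p) * (1 - x ^ 2) ^ (q - 1))
  rw [himg] at hA hB
  refine ⟨⟨?_, ?_⟩, h1, h2⟩
  · have hC := (hA.mp h1).congr_fun he MeasurableSet.univ
    rw [integrableOn_univ] at hC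
    have hD := hC.const_mul (2 : ℝ)
    refine hD.congr (ae_of_all _ fun x => ?_)
    ring
  · rw [h2, setIntegral_congr_fun MeasurableSet.univ he, setIntegral_univ,
      integral_const_mul] at hB
    linarith

end Pool.Agent.H39.TO
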