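import Pool.Agent.H84.TO.TargetsH

open MeasureTheory Matrix
open scoped ENNReal

namespace Pool.Agent.H39.TO
open Pool.Agent.H84.TO

section alg
variable {ι : Type} [Fintype ι] [DecidableEq ι]

/-- `x` is cyclic for `O` -/
def Cyc (O : Matrix ι ι ℝ) (x : ι → ℝ) : Prop :=
  ∀ E : Submodule ℝ (ι → ℝ), x ∈ E → (∀ y ∈ E, O *ᵥ y ∈ E) → E = ⊤

theorem pow_mem' {O : Matrix ι ι ℝ} {x : ι → ℝ} {E : Submodule ℝ (ι → ℝ)} (hx : x ∈ E)
    (hO : ∀ y ∈ E, O *ᵥ y ∈ E) (k : ℕ) : (O ^ k) *ᵥ x ∈ E := by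
  induction k with
  | zero => simpa using hx
  | succ k ih =>
    rw [pow_succ', ← mulVec_mulVec]
    exact hO _ ih

theorem cyc_iff (O : Matrix ι ι ℝ) (x : ι → ℝ) : Cyc O x ↔
    ∃ f : ι → ℕ, (Matrix.of fun i j => ((O ^ (f j)) *ᵥ x) i).det ≠ 0 := by
  classical
  constructor
  · intro h
    have h1 : Submodule.span ℝ (Set.range fun k : ℕ => (O ^ k) *ᵥ x) = ⊤ := by
      refine h _ (Submodule.subset_span ⟨0, by simp⟩) ?_
      intro y hy
      induction hy using Submodule.span_induction with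
      | mem y hy =>
        obtain ⟨k, rfl⟩ := hy
        exact Submodule.subset_span ⟨k + 1, by simp [pow_succ', mulVec_mulVec]⟩
      | zero => simp
      | add a b _ _ ha hb => rw [mulVec_add]; exact add_mem ha hb
      | smul c a _ ha => rw [mulVec_smul]; exact Submodule.smul_mem _ _ ha
    obtain ⟨b, hb1, hb2, hb3⟩ := exists_linearIndependent ℝ
      (Set.range fun k : ℕ => (O ^ k) *ᵥ x)
    have hb4 : ⊤ ≤ Submodule.span ℝ (Set.range ((↑) : b → (ι → ℝ))) := by
      rw [Subtype.range_coe, hb2, h1]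
    let B := Module.Basis.mk hb3 hb4
    have : Fintype b := FiniteDimensional.fintypeBasisIndex B
    have hcard : Fintype.card b = Fintype.card ι := by
      rw [← Module.finrank_eq_card_basis B, Module.finrank_fintype_fun_eq_card]
    let e : ι ≃ b := Fintype.equivOfCardEq hcard.symm
    choose f hf using fun j : ι => hb1 (e j).2
    refine ⟨f, ?_⟩
    have hlin : LinearIndependent ℝ (fun j : ι => ((e j : b) : ι → ℝ)) :=
      hb3.comp e e.injective
    have hu : IsUnit (Matrix.of fun i j => ((O ^ (f j)) *ᵥ x) i) := by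
      refine (linearIndependent_cols_iff_isUnit (K := ℝ)).mp ?_
      have hcols : (Matrix.of fun i j => ((O ^ (f j)) *ᵥ x) i).col =
          fun j : ι => ((e j : b) : ι → ℝ) := funext fun j => hf j
      rw [hcols]
      exact hlin
    exact ((Matrix.isUnit_iff_isUnit_det _).mp hu).ne_zero
  · rintro ⟨f, hf⟩ E hx hO
    rw [eq_top_iff]
    rintro y -
    set A : Matrix ι ι ℝ := Matrix.of fun i j => ((O ^ (f j)) *ᵥ x) i with hA
    have hy : y = A *ᵥ (A⁻¹ *ᵥ y) := by
      rw [mulVec_mulVec, mul_nonsing_inv _ (isUnit_iff_ne_zero.mpr hf), one_mulVec]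
    have h2 : A *ᵥ (A⁻¹ *ᵥ y) = ∑ j, (A⁻¹ *ᵥ y) j • ((O ^ (f j)) *ᵥ x) := by
      funext i
      rw [Finset.sum_apply]
      change ∑ j, A i j * (A⁻¹ *ᵥ y) j = _
      refine Finset.sum_congr rfl fun j _ => ?_
      rw [Pi.smul_apply, smul_eq_mul, mul_comm]
      rfl
    rw [hy, h2]
    exact Submodule.sum_mem _ fun j _ => Submodule.smul_mem _ _ (pow_mem' hx hO _)

theorem cyc_meas (x : ι → ℝ) : MeasurableSet {O : Matrix ι ι ℝ | Cyc O x} := by
  have h1 : {O : Matrix ι ι ℝ | Cyc O x} = ⋃ f : ι → ℕ,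
      {O : Matrix ι ι ℝ | (Matrix.of fun i j => ((O ^ (f j)) *ᵥ x) i).det ≠ 0} := by
    ext O
    rw [Set.mem_iUnion]
    exact cyc_iff O x
  rw [h1]
  refine MeasurableSet.iUnion fun f => IsOpen.measurableSet ?_
  refine isOpen_ne_fun ?_ continuous_const
  refine Continuous.matrix_det ?_
  refine continuous_matrix fun i j => ?_
  simp only [of_apply]
  have : Continuous fun O : Matrix ι ι ℝ => (O ^ (f j)) *ᵥ x :=
    (continuous_pow (f j)).matrix_mulVec continuous_const
  exact (continuous_apply i).comp this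

/-- the Householder reflection -/
noncomputable def Hh (w : ι → ℝ) : Matrix ι ι ℝ :=
  1 - (2 / (w ⬝ᵥ w)) • vecMulVec w w

theorem hh_mulVec (w z : ι → ℝ) : Hh w *ᵥ z = z - (2 * (w ⬝ᵥ z) / (w ⬝ᵥ w)) • w := by
  rw [Hh, sub_mulVec, one_mulVec, smul_mulVec, vecMulVec_mulVec]
  funext i
  simp
  ring

theorem hh_hh (w : ι → ℝ) (hw : w ⬝ᵥ w ≠ 0) (z : ι → ℝ) : Hh w *ᵥ (Hh w *ᵥ z) = z := by
  rw [hh_mulVec w (Hh w *ᵥ z), hh_mulVec w z, dotProduct_sub, dotProduct_smul, smul_eq_mul]
  funext i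
  simp only [Pi.sub_apply, Pi.smul_apply, smul_eq_mul]
  field_simp
  ring

theorem mat_ext {A B : Matrix ι ι ℝ} (h : ∀ z, A *ᵥ z = B *ᵥ z) : A = B := by
  refine Matrix.ext fun i j => ?_
  have := congrFun (h (Pi.single j 1)) i
  simpa using this

theorem hh_mul (w : ι → ℝ) (hw : w ⬝ᵥ w ≠ 0) : Hh w * Hh w = 1 := by
  refine mat_ext fun z => ?_
  rw [← mulVec_mulVec, hh_hh w hw, one_mulVec]

theorem hh_trans (w : ι → ℝ) : (Hh w)ᵀ = Hh w := by
  refine Matrix.ext fun i j => ?_
  simp only [Hh, transpose_apply, Matrix.sub_apply, Matrix.smul_apply, vecMulVec_apply,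
    smul_eq_mul, Matrix.one_apply]
  rw [mul_comm (w j) (w i)]
  by_cases h : i = j
  · rw [h]
  · simp [h, Ne.symm h]

/-- as an element of the orthogonal group -/
noncomputable def HO (w : ι → ℝ) (hw : w ⬝ᵥ w ≠ 0) : Matrix.orthogonalGroup ι ℝ :=
  ⟨Hh w, by
    rw [Matrix.mem_orthogonalGroup_iff, hh_trans, hh_mul w hw]⟩

theorem dot_pos {w : ι → ℝ} (h : w ≠ 0) : w ⬝ᵥ w ≠ 0 := fun h0 => h (dotProduct_self_eq_zero.mp h0)

theorem hh_swap {x y : ι → ℝ} (h : x ⬝ᵥ x = y ⬝ᵥ y) (hne : x ≠ y) : Hh (x - y) *ᵥ x = y := by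
  have hw : (x - y) ⬝ᵥ (x - y) ≠ 0 := dot_pos (sub_ne_zero.mpr hne)
  rw [hh_mulVec]
  have h1 : 2 * ((x - y) ⬝ᵥ x) / ((x - y) ⬝ᵥ (x - y)) = 1 := by
    rw [div_eq_one_iff_eq hw]
    simp only [sub_dotProduct, dotProduct_sub]
    rw [dotProduct_comm y x, ← h]
    ring
  rw [h1, one_smul, sub_sub_cancel]

/-- the orthogonal group is transitive on spheres -/
theorem trans_O {x y : ι → ℝ} (h : x ⬝ᵥ x = y ⬝ᵥ y) :
    ∃ g : Matrix.orthogonalGroup ι ℝ, g.1 *ᵥ x = y := by
  by_cases hne : x = y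
  · exact ⟨1, by rw [hne]; simp⟩
  · exact ⟨HO (x - y) (dot_pos (sub_ne_zero.mpr hne)), hh_swap h hne⟩

theorem O_mul_star (g : Matrix.orthogonalGroup ι ℝ) : g.1 * (g.1)ᵀ = 1 := by
  exact (Matrix.mem_orthogonalGroup_iff ι ℝ).mp g.2

theorem O_star_mul (g : Matrix.orthogonalGroup ι ℝ) : (g.1)ᵀ * g.1 = 1 := by
  exact (Matrix.mem_orthogonalGroup_iff' ι ℝ).mp g.2

theorem O_dot (g : Matrix.orthogonalGroup ι ℝ) (x y : ι → ℝ) :
    (g.1 *ᵥ x) ⬝ᵥ (g.1 *ᵥ y) = x ⬝ᵥ y := by
  rw [dotProduct_mulVec, ← mulVec_transpose, mulVec_mulVec, O_star_mul, one_mulVec]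

theorem cyc_smul {O : Matrix ι ι ℝ} {x : ι → ℝ} {c : ℝ} (hc : c ≠ 0) (h : Cyc O (c • x)) :
    Cyc O x := fun E hx hE => h E (E.smul_mem c hx) hE

theorem cyc_conj {O g : Matrix ι ι ℝ} {x : ι → ℝ} (gi : Matrix ι ι ℝ) (h1 : gi * g = 1)
    (h2 : g * gi = 1) (h : Cyc (g * O * gi) (g *ᵥ x)) : Cyc O x := by
  intro E hx hE
  have h3 := h (E.map (Matrix.mulVecLin g)) ⟨x, hx, rfl⟩ (by
    rintro _ ⟨y, hy, rfl⟩
    refine ⟨O *ᵥ y, hE y hy, ?_⟩
    simp only [mulVecLin_apply, mulVec_mulVec]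
    rw [Matrix.mul_assoc, Matrix.mul_assoc, h1, Matrix.mul_one])
  rw [eq_top_iff]
  rintro y -
  have h4 : g *ᵥ y ∈ E.map (Matrix.mulVecLin g) := by rw [h3]; trivial
  obtain ⟨z, hz, hzy⟩ := h4
  have h5 : y = z := by
    have := congrArg (fun v => gi *ᵥ v) hzy
    simp only [mulVecLin_apply, mulVec_mulVec, h1, one_mulVec] at this
    exact this.symm
  rw [h5]
  exact hz

end alg

/-! ## the embedding of the smaller orthogonal group -/

section hat
variable {ι : Type} [Fintype ι] [DecidableEq ι] (i0 : ι)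

/-- extension by zero -/
def exz (z : {i // i ≠ i0} → ℝ) (i : ι) : ℝ := if h : i ≠ i0 then z ⟨i, h⟩ else 0

/-- extension of a matrix by a one -/
def hat (M : Matrix {i // i ≠ i0} {i // i ≠ i0} ℝ) : Matrix ι ι ℝ := fun i j =>
  if h : i ≠ i0 ∧ j ≠ i0 then M ⟨i, h.1⟩ ⟨j, h.2⟩ else if i = j then 1 else 0

variable {i0}

theorem hat_sub (M : Matrix {i // i ≠ i0} {i // i ≠ i0} ℝ) (i j : {i // i ≠ i0}) :
    hat i0 M i j = M i j := by
  simp [hat, i.2, j.2]

theorem hat_row (M : Matrix {i // i ≠ i0} {i // i ≠ i0} ℝ) (j : ι) :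
    hat i0 M i0 j = if i0 = j then 1 else 0 := by
  simp [hat]

theorem hat_col (M : Matrix {i // i ≠ i0} {i // i ≠ i0} ℝ) (i : ι) :
    hat i0 M i i0 = if i = i0 then 1 else 0 := by
  simp [hat]

theorem hat_mul (M N : Matrix {i // i ≠ i0} {i // i ≠ i0} ℝ) :
    hat i0 (M * N) = hat i0 M * hat i0 N := by
  refine Matrix.ext fun i j => ?_
  rw [Matrix.mul_apply, Fintype.sum_eq_add_sum_subtype_ne _ i0]
  by_cases hi : i = i0
  · subst hi
    have h1 : ∀ l : {l // l ≠ i}, hat i M i l = 0 := fun l => by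
      rw [hat_row, if_neg (Ne.symm l.2)]
    simp only [h1, zero_mul, Finset.sum_const_zero, add_zero]
    rw [hat_row, hat_row, hat_row, if_pos rfl, one_mul]
  · by_cases hj : j = i0
    · subst hj
      have h1 : ∀ l : {l // l ≠ j}, hat j N l j = 0 := fun l => by
        rw [hat_col, if_neg l.2]
      simp only [h1, mul_zero, Finset.sum_const_zero, add_zero]
      rw [hat_col, hat_col, hat_col, if_neg hi, zero_mul]
    · have e1 := hat_sub (M * N) ⟨i, hi⟩ ⟨j, hj⟩
      simp only at e1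
      rw [e1, hat_col, if_neg hi, zero_mul, zero_add, Matrix.mul_apply]
      refine Finset.sum_congr rfl fun l _ => ?_
      have e2 := hat_sub M ⟨i, hi⟩ l
      have e3 := hat_sub N l ⟨j, hj⟩
      simp only at e2 e3
      rw [e2, e3]

theorem hat_one : hat i0 (1 : Matrix {i // i ≠ i0} {i // i ≠ i0} ℝ) = 1 := by
  refine Matrix.ext fun i j => ?_
  by_cases hi : i = i0
  · subst hi
    rw [hat_row, Matrix.one_apply]
  · by_cases hj : j = i0
    · subst hj
      rw [hat_col, Matrix.one_apply]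
    · have e1 := hat_sub (1 : Matrix {i // i ≠ i0} {i // i ≠ i0} ℝ) ⟨i, hi⟩ ⟨j, hj⟩
      simp only at e1
      rw [e1, Matrix.one_apply, Matrix.one_apply]
      simp

theorem hat_trans (M : Matrix {i // i ≠ i0} {i // i ≠ i0} ℝ) :
    (hat i0 M)ᵀ = hat i0 Mᵀ := by
  refine Matrix.ext fun i j => ?_
  rw [transpose_apply]
  by_cases hi : i = i0
  · subst hi
    rw [hat_row, hat_col]
    simp [eq_comm]
  · by_cases hj : j = i0
    · subst hj
      rw [hat_col, hat_row]
      simp [eq_comm]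
    · have e1 := hat_sub M ⟨j, hj⟩ ⟨i, hi⟩
      have e2 := hat_sub Mᵀ ⟨i, hi⟩ ⟨j, hj⟩
      simp only at e1 e2
      rw [e1, e2, transpose_apply]

/-- the embedding of groups -/
def hatO (g : Matrix.orthogonalGroup {i // i ≠ i0} ℝ) : Matrix.orthogonalGroup ι ℝ :=
  ⟨hat i0 g.1, by
    rw [Matrix.mem_orthogonalGroup_iff, hat_trans, ← hat_mul, O_mul_star, hat_one]⟩

theorem hatO_mul (g h : Matrix.orthogonalGroup {i // i ≠ i0} ℝ) :
    hatO (i0 := i0) (g * h) = hatO g * hatO h := by
  apply Subtype.ext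
  exact hat_mul g.1 h.1

theorem hat_meas : Measurable (hat i0 : Matrix {i // i ≠ i0} {i // i ≠ i0} ℝ → Matrix ι ι ℝ) := by
  apply Continuous.measurable
  refine continuous_matrix fun i j => ?_
  unfold hat
  split_ifs
  · exact continuous_id.matrix_elem _ _
  · exact continuous_const
  · exact continuous_const

theorem hatO_meas : Measurable (hatO (i0 := i0)) :=
  Measurable.subtype_mk (hat_meas.comp measurable_subtype_coe)

theorem hat_exz (M : Matrix {i // i ≠ i0} {i // i ≠ i0} ℝ) (z : {i // i ≠ i0} → ℝ) :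
    hat i0 M *ᵥ exz i0 z = exz i0 (M *ᵥ z) := by
  have hz : ∀ l : {i // i ≠ i0}, exz i0 z l = z l := fun l => by simp [exz, l.2]
  have hz0 : exz i0 z i0 = 0 := by simp [exz]
  funext i
  change ∑ j, hat i0 M i j * exz i0 z j = _
  rw [Fintype.sum_eq_add_sum_subtype_ne _ i0, hz0, mul_zero, zero_add]
  by_cases hi : i = i0
  · subst hi
    have h1 : ∀ l : {l // l ≠ i}, hat i M i l = 0 := fun l => by
      rw [hat_row, if_neg (Ne.symm l.2)]
    simp only [h1, zero_mul, Finset.sum_const_zero]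
    simp [exz]
  · have e1 : exz i0 (M *ᵥ z) i = (M *ᵥ z) ⟨i, hi⟩ := by simp [exz, hi]
    rw [e1]
    change _ = ∑ j, M ⟨i, hi⟩ j * z j
    refine Finset.sum_congr rfl fun l _ => ?_
    have e2 := hat_sub M ⟨i, hi⟩ l
    simp only at e2
    rw [e2, hz]

theorem hat_single (M : Matrix {i // i ≠ i0} {i // i ≠ i0} ℝ) :
    hat i0 M *ᵥ Pi.single i0 1 = Pi.single i0 1 := by
  funext i
  rw [mulVec_single_one]
  change hat i0 M i i0 = _
  rw [hat_col]
  by_cases hi : i = i0
  · subst hi; simp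
  · simp [hi]

theorem decomp (y : ι → ℝ) : y = exz i0 (fun i => y i) + y i0 • Pi.single i0 1 := by
  funext i
  by_cases hi : i = i0
  · subst hi; simp [exz]
  · simp [exz, hi]

/-- orthogonal matrices fixing the basis vector -/
theorem exists_hat (g : Matrix.orthogonalGroup ι ℝ)
    (hg : g.1 *ᵥ Pi.single i0 1 = Pi.single i0 1) :
    ∃ k : Matrix.orthogonalGroup {i // i ≠ i0} ℝ, hatO k = g := by
  have hcol : ∀ i, g.1 i i0 = if i = i0 then 1 else 0 := by
    intro i
    have := congrFun hg i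
    rw [mulVec_single_one] at this
    change g.1 i i0 = _ at this
    rw [this]
    by_cases hi : i = i0
    · subst hi; simp
    · simp [hi]
  have hg2 : (g.1)ᵀ *ᵥ Pi.single i0 1 = Pi.single i0 1 := by
    conv_lhs => rw [← hg]
    rw [mulVec_mulVec, O_star_mul, one_mulVec]
  have hrow : ∀ j, g.1 i0 j = if i0 = j then 1 else 0 := by
    intro j
    have := congrFun hg2 j
    rw [mulVec_single_one] at this
    change g.1 i0 j = _ at this
    rw [this]
    by_cases hi : j = i0
    · subst hi; simp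
    · simp [hi, Ne.symm hi]
  set M : Matrix {i // i ≠ i0} {i // i ≠ i0} ℝ := fun i j => g.1 i j with hM
  have hhat : hat i0 M = g.1 := by
    refine Matrix.ext fun i j => ?_
    by_cases hi : i = i0
    · subst hi; rw [hat_row, hrow]
    · by_cases hj : j = i0
      · subst hj; rw [hat_col, hcol]
      · have := hat_sub M ⟨i, hi⟩ ⟨j, hj⟩
        simp only at this
        rw [this]
  have hinj : ∀ A B : Matrix {i // i ≠ i0} {i // i ≠ i0} ℝ, hat i0 A = hat i0 B → A = B := by
    intro A B h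
    refine Matrix.ext fun i j => ?_
    rw [← hat_sub A, ← hat_sub B, h]
  have hMo : M * Mᵀ = 1 := by
    apply hinj
    rw [hat_mul, ← hat_trans, hhat, hat_one, O_mul_star]
  refine ⟨⟨M, ?_⟩, ?_⟩
  · rw [Matrix.mem_orthogonalGroup_iff, hMo]
  · exact Subtype.ext hhat

/-- the geometric step -/
theorem cyc_step {w : ι → ℝ} {M : Matrix {i // i ≠ i0} {i // i ≠ i0} ℝ}
    (hw : w ⬝ᵥ w ≠ 0) {u : ι → ℝ} (hwu : w = Pi.single i0 1 - u)
    (hρ : Hh w *ᵥ Pi.single i0 1 = u) (hc : Cyc M (fun i => u i)) :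
    Cyc (Hh w * hat i0 M) (Pi.single i0 1) := by
  intro E he hE
  have hu : u ∈ E := by
    have := hE _ he
    rwa [← mulVec_mulVec, hat_single, hρ] at this
  have hwE : w ∈ E := by rw [hwu]; exact E.sub_mem he hu
  have hρE : ∀ y ∈ E, Hh w *ᵥ y ∈ E := by
    intro y hy
    rw [hh_mulVec]
    exact E.sub_mem hy (E.smul_mem _ hwE)
  have hhE : ∀ y ∈ E, hat i0 M *ᵥ y ∈ E := by
    intro y hy
    have h1 := hρE _ (hE y hy)
    rwa [← mulVec_mulVec, hh_hh w hw] at h1
  let L : ({i // i ≠ i0} → ℝ) →ₗ[ℝ] (ι → ℝ) :=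
    { toFun := exz i0
      map_add' := fun x y => by
        funext i; simp only [exz, Pi.add_apply]; split_ifs <;> simp
      map_smul' := fun c x => by
        funext i; simp only [exz, Pi.smul_apply]; split_ifs <;> simp }
  have h2 := hc (E.comap L) (by
    change exz i0 (fun i => u i) ∈ E
    have h3 : exz i0 (fun i => u i) = u - u i0 • Pi.single i0 1 := by
      rw [eq_sub_iff_add_eq]
      exact (decomp u).symm
    rw [h3]
    exact E.sub_mem hu (E.smul_mem _ he)) (by
    intro z hz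
    change exz i0 (M *ᵥ z) ∈ E
    rw [← hat_exz]
    exact hhE _ hz)
  rw [eq_top_iff]
  rintro y -
  rw [decomp (i0 := i0) y]
  refine E.add_mem ?_ (E.smul_mem _ he)
  have h4 : (fun i : {i // i ≠ i0} => y i) ∈ E.comap L := by rw [h2]; trivial
  exact h4

end hat

section meas
variable {ι : Type} [Fintype ι] [DecidableEq ι]

theorem val_meas : Measurable (fun O : Matrix.orthogonalGroup ι ℝ => (O.1 : Matrix ι ι ℝ)) :=
  measurable_subtype_coe

/-- the columns have no atoms -/
theorem no_atom (μ : Measure (Matrix.orthogonalGroup ι ℝ)) [IsProbabilityMeasure μ]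
    [μ.IsMulLeftInvariant] {i0 i1 : ι} (h01 : i1 ≠ i0) (x : ι → ℝ) (hx : x ⬝ᵥ x = 1) :
    ∀ᵐ O ∂μ, O.1 *ᵥ Pi.single i0 1 ≠ x := by
  have hgm : Measurable (fun O : Matrix.orthogonalGroup ι ℝ => O.1 *ᵥ Pi.single i0 (1 : ℝ)) := by
    have h1 : Continuous fun O : Matrix ι ι ℝ => O *ᵥ Pi.single i0 (1 : ℝ) :=
      continuous_id.matrix_mulVec continuous_const
    exact h1.measurable.comp val_meas
  have hcount := Measure.countable_meas_level_set_pos (μ := μ) hgm
  have hsame : ∀ y : ι → ℝ, y ⬝ᵥ y = 1 →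
      μ {O | O.1 *ᵥ Pi.single i0 1 = y} = μ {O | O.1 *ᵥ Pi.single i0 1 = x} := by
    intro y hy
    obtain ⟨g, hg⟩ := trans_O (x := y) (y := x) (by rw [hx, hy])
    have h1 : {O : Matrix.orthogonalGroup ι ℝ | O.1 *ᵥ Pi.single i0 1 = y} =
        (fun O => g * O) ⁻¹' {O | O.1 *ᵥ Pi.single i0 1 = x} := by
      ext O
      constructor
      · intro h
        change (g.1 * O.1) *ᵥ Pi.single i0 1 = x
        rw [← mulVec_mulVec]
        rw [show O.1 *ᵥ Pi.single i0 1 = y from h, hg]
      · intro h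
        have h2 : (g.1 * O.1) *ᵥ Pi.single i0 1 = x := h
        rw [← mulVec_mulVec, ← hg] at h2
        have h3 := congrArg (fun v => (g.1)ᵀ *ᵥ v) h2
        simp only [mulVec_mulVec] at h3
        rw [← Matrix.mul_assoc, O_star_mul, Matrix.one_mul, one_mulVec] at h3
        exact h3
    rw [h1, measure_preimage_mul]
  by_contra hcon
  have hpos : 0 < μ {O | O.1 *ᵥ Pi.single i0 1 = x} := by
    rw [pos_iff_ne_zero]
    intro h0
    apply hcon
    rw [ae_iff]
    simpa using h0
  -- uncountably many unit vectors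
  set xt : ℝ → ι → ℝ := fun t => (Real.sqrt (1 + t ^ 2))⁻¹ •
    (Pi.single i0 1 + t • Pi.single i1 1) with hxt
  have hpt : ∀ t : ℝ, 0 < Real.sqrt (1 + t ^ 2) := fun t => Real.sqrt_pos.mpr (by positivity)
  have hunit : ∀ t, xt t ⬝ᵥ xt t = 1 := by
    intro t
    have h2 : (Pi.single i0 (1 : ℝ) + t • Pi.single i1 (1 : ℝ) : ι → ℝ) ⬝ᵥ
        (Pi.single i0 1 + t • Pi.single i1 1) = 1 + t ^ 2 := by
      simp only [add_dotProduct, dotProduct_add, smul_dotProduct, dotProduct_smul,
        single_dotProduct, Pi.single_eq_same, smul_eq_mul, one_mul]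
      rw [Pi.single_eq_of_ne h01, Pi.single_eq_of_ne (Ne.symm h01)]
      ring
    simp only [hxt]
    rw [smul_dotProduct, dotProduct_smul, h2, smul_eq_mul, smul_eq_mul, ← mul_assoc,
      ← mul_inv, Real.mul_self_sqrt (by positivity)]
    exact inv_mul_cancel₀ (by positivity)
  have hinj : Function.Injective xt := by
    intro s t hst
    have a0 := congrFun hst i0
    have a1 := congrFun hst i1
    simp only [hxt, Pi.smul_apply, Pi.add_apply, Pi.single_eq_same, smul_eq_mul,
      Pi.single_eq_of_ne h01, Pi.single_eq_of_ne (Ne.symm h01), mul_zero, add_zero, mul_one,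
      zero_add] at a0 a1
    rw [a0] at a1
    exact mul_left_cancel₀ (inv_ne_zero (hpt t).ne') a1
  have hsub : Set.range xt ⊆ {y | 0 < μ {O | O.1 *ᵥ Pi.single i0 1 = y}} := by
    rintro _ ⟨t, rfl⟩
    change 0 < μ {O | O.1 *ᵥ Pi.single i0 1 = xt t}
    rw [hsame _ (hunit t)]
    exact hpos
  have h5 := (hcount.mono hsub)
  rw [← Set.image_univ] at h5
  have h6 : (Set.univ : Set ℝ).Countable := Set.countable_of_injective_of_countable_image
    hinj.injOn h5
  exact Set.not_countable_univ h6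

end meas

theorem cyc_all (hBIN : T_BIN) (hHEX : T_HEX) : ∀ (n : ℕ) (ι : Type) [Fintype ι]
    [DecidableEq ι], Fintype.card ι = n → ∀ (μ : Measure (Matrix.orthogonalGroup ι ℝ))
    [IsProbabilityMeasure μ] [μ.IsMulLeftInvariant] (x : ι → ℝ), x ≠ 0 →
    ∀ᵐ O ∂μ, Cyc O.1 x := by
  intro n
  induction n with
  | zero =>
    intro ι _ _ hc μ _ _ x hx
    exfalso
    apply hx
    have : IsEmpty ι := Fintype.card_eq_zero_iff.mp hc
    funext i
    exact isEmptyElim i
  | succ n ih =>
    intro ι _ _ hc μ _ _ x hx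
    have : Nonempty ι := Fintype.card_pos_iff.mp (by omega)
    obtain ⟨i0⟩ : Nonempty ι := inferInstance
    haveI hri : μ.IsMulRightInvariant := (hBIN ι μ μ).2.1
    -- first the basis vector
    have hbase : ∀ᵐ O ∂μ, Cyc O.1 (Pi.single i0 1) := by
      by_cases hn : ∃ i1 : ι, i1 ≠ i0
      · obtain ⟨i1, hi1⟩ := hn
        obtain ⟨ν, hν1, hν2⟩ := hHEX {i // i ≠ i0}
        have hcard : Fintype.card {i // i ≠ i0} = n := by
          rw [Fintype.card_subtype_compl, Fintype.card_subtype_eq, hc]; rfl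
        have hunit : (Pi.single i0 (1 : ℝ) : ι → ℝ) ⬝ᵥ Pi.single i0 1 = 1 := by simp
        have n1 := no_atom μ hi1 (Pi.single i0 1) hunit
        have n2 := no_atom μ hi1 (-Pi.single i0 1) (by
          rw [neg_dotProduct_neg]; exact hunit)
        have hmain : ∀ᵐ O ∂μ, ∀ᵐ k ∂ν, Cyc (O * hatO k).1 (Pi.single i0 1) := by
          filter_upwards [n1, n2] with O h1 h2
          set u : ι → ℝ := O.1 *ᵥ Pi.single i0 1 with hu
          have huu : u ⬝ᵥ u = 1 := by rw [hu, O_dot]; exact hunit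
          have hne : (Pi.single i0 1 : ι → ℝ) ≠ u := Ne.symm h1
          set w : ι → ℝ := Pi.single i0 1 - u with hw
          have hww : w ⬝ᵥ w ≠ 0 := dot_pos (sub_ne_zero.mpr hne)
          have hρ : Hh w *ᵥ Pi.single i0 1 = u := hh_swap (by rw [hunit, huu]) hne
          have hρ2 : Hh w *ᵥ u = Pi.single i0 1 := by rw [← hρ, hh_hh w hww]
          obtain ⟨k0, hk0⟩ := exists_hat (HO w hww * O) (by
            change (Hh w * O.1) *ᵥ Pi.single i0 1 = Pi.single i0 1
            rw [← mulVec_mulVec]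
            exact hρ2)
          have hub : (fun i : {i // i ≠ i0} => u i) ≠ 0 := by
            intro h0
            have h3 : u = u i0 • Pi.single i0 1 := by
              conv_lhs => rw [decomp (i0 := i0) u]
              have : exz i0 (fun i : {i // i ≠ i0} => u i) = 0 := by
                rw [h0]; funext i; simp [exz]
              rw [this, zero_add]
            have h4 : (u i0) ^ 2 = 1 := by
              have := huu
              rw [h3] at this
              simp only [smul_dotProduct, dotProduct_smul, hunit, smul_eq_mul, mul_one] at this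
              rw [sq]
              simpa using this
            have h6 : (u i0 - 1) * (u i0 + 1) = 0 := by linear_combination h4
            rcases mul_eq_zero.mp h6 with h5 | h5
            · exact h1 (h3.trans (by rw [sub_eq_zero.mp h5, one_smul]))
            · exact h2 (h3.trans (by rw [eq_neg_of_add_eq_zero_left h5, neg_one_smul]))
          have hih := ih {i // i ≠ i0} hcard ν (fun i => u i) hub
          have hq : ∀ᵐ k ∂ν, Cyc (k0 * k).1 (fun i => u i) :=
            (measurePreserving_mul_left ν k0).quasiMeasurePreserving.ae hih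
          filter_upwards [hq] with k hk
          have e1 : O * hatO k = HO w hww * hatO (k0 * k) := by
            rw [hatO_mul, hk0, ← mul_assoc, ← mul_assoc]
            have : HO w hww * HO w hww = 1 := Subtype.ext (hh_mul w hww)
            rw [this, one_mul]
          rw [e1]
          exact cyc_step hww rfl hρ hk
        have hms : MeasurableSet {p : Matrix.orthogonalGroup ι ℝ ×
            Matrix.orthogonalGroup {i // i ≠ i0} ℝ |
            Cyc (p.1 * hatO p.2).1 (Pi.single i0 1)} := by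
          have hm : Measurable (fun p : Matrix.orthogonalGroup ι ℝ ×
            Matrix.orthogonalGroup {i // i ≠ i0} ℝ => ((p.1 * hatO p.2).1 : Matrix ι ι ℝ)) :=
            val_meas.comp (measurable_fst.mul (hatO_meas.comp measurable_snd))
          exact hm (cyc_meas (Pi.single i0 1))
        have hsw := (Measure.ae_ae_comm hms).mp hmain
        obtain ⟨k, hk⟩ := hsw.exists
        have := (measurePreserving_mul_right μ (hatO (i0 := i0) k)⁻¹).quasiMeasurePreserving.ae hk
        filter_upwards [this] with O hO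
        simpa using hO
      · push Not at hn
        refine Filter.Eventually.of_forall fun O E he _ => ?_
        rw [eq_top_iff]
        rintro y -
        have : y = y i0 • Pi.single i0 1 := by
          funext i
          rw [hn i]
          simp
        rw [this]
        exact E.smul_mem _ he
    -- general vectors
    have hxx : 0 < x ⬝ᵥ x := by
      have h1 := dot_pos hx
      have h2 : 0 ≤ x ⬝ᵥ x := Finset.sum_nonneg fun i _ => mul_self_nonneg _
      exact lt_of_le_of_ne h2 (Ne.symm h1)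
    set c : ℝ := (Real.sqrt (x ⬝ᵥ x))⁻¹ with hcdef
    have hc0 : c ≠ 0 := inv_ne_zero (Real.sqrt_pos.mpr hxx).ne'
    obtain ⟨g, hg⟩ := trans_O (x := c • x) (y := (Pi.single i0 1 : ι → ℝ)) (by
      rw [smul_dotProduct, dotProduct_smul, smul_eq_mul, smul_eq_mul, ← mul_assoc, hcdef,
        ← mul_inv, Real.mul_self_sqrt hxx.le, inv_mul_cancel₀ hxx.ne']
      simp)
    have h1 := (measurePreserving_mul_left μ g).quasiMeasurePreserving.ae
      ((measurePreserving_mul_right μ g⁻¹).quasiMeasurePreserving.ae hbase)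
    filter_upwards [h1] with O hO
    refine cyc_smul hc0 (cyc_conj (g := g.1) (g.1)ᵀ (O_star_mul g) (O_mul_star g) ?_)
    rw [hg]
    exact hO

theorem cyc (hBIN : T_BIN) (hHEX : T_HEX) : T_CYC := by
  intro ι _ _ i0 μ _ _
  have h := cyc_all hBIN hHEX _ ι rfl μ (Pi.single i0 1) (by
    intro h
    have := congrFun h i0
    simp at this)
  filter_upwards [h] with O hO E he hE
  exact hO E he hE

end Pool.Agent.H39.TO
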