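import Pool.Agent.H84.TO.TargetsH

open MeasureTheory Matrix
open scoped ENNReal

namespace Pool.Agent.H39.TO
open Pool.Agent.H84.TO

section gen
variable {ι κ a b : Type} [Fintype ι] [DecidableEq ι] [Fintype κ] [DecidableEq κ]
  [Fintype a] [DecidableEq a] [Fintype b] [DecidableEq b]

/-- the Stein equation -/
theorem stein_eq (Y : Matrix (ι ⊕ κ) ι ℝ) (h : Function.Injective (sylv (top Y) (top Y))) :
    solP Y - (top Y)ᵀ * solP Y * top Y = (bot Y)ᵀ * bot Y := by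
  have hs : Function.Surjective (sylv (top Y) (top Y)) := LinearMap.injective_iff_surjective.mp h
  unfold solP
  rw [if_pos h]
  exact Function.invFun_eq (hs ((bot Y)ᵀ * bot Y))

theorem rows_eq (Y : Matrix (ι ⊕ κ) ι ℝ) : Y = fromRows (top Y) (bot Y) :=
  (fromRows_toRows Y).symm

theorem congr_ext (Y : Matrix (ι ⊕ κ) ι ℝ) (P : Matrix ι ι ℝ) :
    Yᵀ * ext κ P * Y = (top Y)ᵀ * P * top Y + (bot Y)ᵀ * bot Y := by
  conv_lhs => rw [rows_eq Y]
  rw [transpose_fromRows, Pool.Agent.H84.TO.ext, fromCols_mul_fromBlocks, fromCols_mul_fromRows]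
  simp

theorem zdz (Y : Matrix (ι ⊕ κ) ι ℝ) (h : good Y) : Yᵀ * ext κ (solP Y) * Y = solP Y := by
  rw [congr_ext]
  have := stein_eq Y h.1
  rw [← this]
  abel

/-- change of variables for an invertible linear map -/
theorem lint_pi {m n : Type} [Fintype m] [Fintype n] (f : (m → n → ℝ) →ₗ[ℝ] (m → n → ℝ))
    (hf : LinearMap.det f ≠ 0) (g : (m → n → ℝ) → ℝ≥0∞) (hg : Measurable g) :
    ∫⁻ x, g (f x) = ENNReal.ofReal |(LinearMap.det f)⁻¹| * ∫⁻ x, g x := by
  have hm : Measurable f := (LinearMap.continuous_of_finiteDimensional f).measurable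
  rw [← lintegral_map hg hm, Measure.map_linearMap_addHaar_eq_smul_addHaar volume hf,
    lintegral_smul_measure, smul_eq_mul]

theorem lint_lin {m n : Type} [Fintype m] [Fintype n] (f : Matrix m n ℝ →ₗ[ℝ] Matrix m n ℝ)
    (hf : LinearMap.det f ≠ 0) (g : Matrix m n ℝ → ℝ≥0∞) (hg : Measurable g) :
    ∫⁻ x, g (f x) = ENNReal.ofReal |(LinearMap.det f)⁻¹| * ∫⁻ x, g x :=
  lint_pi f hf g hg

theorem meas_lin {m n : Type} [Fintype m] [Fintype n] (f : Matrix m n ℝ →ₗ[ℝ] Matrix m n ℝ) :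
    Measurable f := by
  have : Measurable (f : (m → n → ℝ) →ₗ[ℝ] (m → n → ℝ)) :=
    (LinearMap.continuous_of_finiteDimensional
      (f : (m → n → ℝ) →ₗ[ℝ] (m → n → ℝ))).measurable
  exact this

/-- Tonelli for rows -/
theorem lint_rows {m₁ m₂ n : Type} [Fintype m₁] [Fintype m₂] [Fintype n]
    (g : Matrix (m₁ ⊕ m₂) n ℝ → ℝ≥0∞) (hg : Measurable g) :
    ∫⁻ T, g T = ∫⁻ V : Matrix m₁ n ℝ, ∫⁻ C : Matrix m₂ n ℝ, g (fromRows V C) := by
  have h := volume_measurePreserving_sumPiEquivProdPi_symm (fun _ : m₁ ⊕ m₂ => n → ℝ)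
  have h1 : ∫⁻ p : Matrix m₁ n ℝ × Matrix m₂ n ℝ, g (fromRows p.1 p.2) = ∫⁻ T, g T := by
    refine Eq.trans ?_ (h.lintegral_comp hg)
    refine lintegral_congr fun p => ?_
    congr 1
  rw [← h1]
  refine lintegral_prod (fun p : Matrix m₁ n ℝ × Matrix m₂ n ℝ => g (fromRows p.1 p.2)) ?_
  refine (hg.comp ?_).aemeasurable
  have h2 : (fun p : Matrix m₁ n ℝ × Matrix m₂ n ℝ => fromRows p.1 p.2) =
      (MeasurableEquiv.sumPiEquivProdPi (fun _ : m₁ ⊕ m₂ => n → ℝ)).symm := by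
    funext p
    ext i j
    rcases i with i | i <;> rfl
  rw [h2]
  exact (MeasurableEquiv.sumPiEquivProdPi (fun _ : m₁ ⊕ m₂ => n → ℝ)).symm.measurable

theorem meas_fromRows {m₁ m₂ n : Type} [Fintype m₁] [Fintype m₂] [Fintype n] :
    Measurable (fun p : Matrix m₁ n ℝ × Matrix m₂ n ℝ => fromRows p.1 p.2) := by
  have h2 : (fun p : Matrix m₁ n ℝ × Matrix m₂ n ℝ => fromRows p.1 p.2) =
      (MeasurableEquiv.sumPiEquivProdPi (fun _ : m₁ ⊕ m₂ => n → ℝ)).symm := by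
    funext p
    ext i j
    rcases i with i | i <;> rfl
  rw [h2]
  exact (MeasurableEquiv.sumPiEquivProdPi (fun _ : m₁ ⊕ m₂ => n → ℝ)).symm.measurable

end gen

theorem f2 (hB : T_BLKV) : T_F2 := by
  intro a b κ _ _ _ _ _ _ Z1 A K hg hK1 hK2 hinj g hgm
  set P := solP Z1 with hPdef
  set Z := top Z1 with hZ
  set C1 := bot Z1 with hC1
  have hP : P.PosDef := hg.2
  have hPdet : 0 < P.det := hP.det_pos
  have hPt : Pᵀ = P := by
    have := hP.isHermitian
    simpa [Matrix.IsHermitian, conjTranspose_eq_transpose_of_trivial] using this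
  have hDt : (ext κ P)ᵀ = ext κ P := by
    rw [Pool.Agent.H84.TO.ext, fromBlocks_transpose, hPt]; simp
  have hZZ : Z1ᵀ * ext κ P * Z1 = P := zdz Z1 hg
  have hZK : Z1ᵀ * ext κ P * K = 0 := by
    have := congrArg transpose hK2
    rw [transpose_mul, transpose_mul, hDt, transpose_transpose, transpose_zero,
      ← Matrix.mul_assoc] at this
    exact this
  set U : Matrix (a ⊕ κ) (a ⊕ κ) ℝ := fromCols Z1 K with hU
  set M : Matrix (a ⊕ κ) (a ⊕ κ) ℝ := Uᵀ * ext κ P with hM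
  have hMr : M = fromRows (Z1ᵀ * ext κ P) (Kᵀ * ext κ P) := by
    rw [hM, hU, transpose_fromCols, fromRows_mul]
  have hMK : M * K = fromRows 0 1 := by
    rw [hMr, fromRows_mul, hZK, hK1]
  have hMZ : M * Z1 = fromRows P 0 := by
    rw [hMr, fromRows_mul, hZZ, hK2]
  have hMU : M * U = fromBlocks P 0 0 1 := by
    rw [hU, mul_fromCols, hMK, hMZ, fromCols_fromRows_eq_fromBlocks]
  have hdetMU : M.det * U.det = P.det := by
    rw [← det_mul, hMU, det_fromBlocks_zero₂₁, det_one, mul_one]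
  have hdetM : M.det = U.det * P.det := by
    rw [hM, det_mul, det_transpose, Pool.Agent.H84.TO.ext, det_fromBlocks_zero₂₁, det_one, mul_one]
  have hU1 : |U.det| = 1 := by
    have h0 : U.det * P.det * U.det = P.det := by rw [← hdetM]; exact hdetMU
    have h1 : U.det ^ 2 * P.det = 1 * P.det := by linear_combination h0
    have h2 := mul_right_cancel₀ hPdet.ne' h1
    have h3 : |U.det| ^ 2 = 1 := by rw [sq_abs]; exact h2
    exact (pow_eq_one_iff_of_nonneg (abs_nonneg _) two_ne_zero).mp h3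
  have hM1 : |M.det| = P.det := by
    rw [hdetM, abs_mul, hU1, one_mul, abs_of_pos hPdet]
  have hMne : M.det ≠ 0 := by
    intro h
    rw [h, abs_zero] at hM1
    exact hPdet.ne hM1
  have hMu : IsUnit M.det := isUnit_iff_ne_zero.mpr hMne
  set S : Matrix a b ℝ →ₗ[ℝ] Matrix a b ℝ := -((sylv Z A).comp (lft P)) with hS
  have hkey : ∀ (V : Matrix a b ℝ) (C : Matrix κ b ℝ),
      M * (K * C + fromRows (V * A - Z * V) (-(C1 * V))) =
        fromRows (S V) (C + (K.toRows₁)ᵀ * (P * (V * A))) := by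
    intro V C
    have e1 : fromRows (V * A - Z * V) (-(C1 * V)) =
        fromRows (V * A) (0 : Matrix κ b ℝ) - Z1 * V := by
      conv_rhs => rw [rows_eq Z1, fromRows_mul]
      ext i j
      rcases i with i | i
      · rfl
      · change -(C1 * V) i j = 0 - (bot Z1 * V) i j
        rw [zero_sub]
    have e2 : M * fromRows (V * A) (0 : Matrix κ b ℝ) =
        fromRows (Zᵀ * (P * (V * A))) ((K.toRows₁)ᵀ * (P * (V * A))) := by
      have e3 : ext κ P * fromRows (V * A) (0 : Matrix κ b ℝ) = fromRows (P * (V * A)) 0 := by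
        rw [Pool.Agent.H84.TO.ext, fromBlocks_mul_fromRows]
        simp
      rw [hM, Matrix.mul_assoc, e3, hU, transpose_fromCols, fromRows_mul]
      have e4 : ∀ X : Matrix (a ⊕ κ) a ℝ, Xᵀ * fromRows (P * (V * A)) (0 : Matrix κ b ℝ) =
          (X.toRows₁)ᵀ * (P * (V * A)) := by
        intro X
        conv_lhs => rw [← fromRows_toRows X, transpose_fromRows, fromCols_mul_fromRows]
        simp
      have e5 : ∀ X : Matrix (a ⊕ κ) κ ℝ, Xᵀ * fromRows (P * (V * A)) (0 : Matrix κ b ℝ) =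
          (X.toRows₁)ᵀ * (P * (V * A)) := by
        intro X
        conv_lhs => rw [← fromRows_toRows X, transpose_fromRows, fromCols_mul_fromRows]
        simp
      rw [e4, e5]
    rw [Matrix.mul_add, ← Matrix.mul_assoc, hMK, e1, Matrix.mul_sub, e2, ← Matrix.mul_assoc M,
      hMZ, fromRows_mul, fromRows_mul]
    ext i j
    rcases i with i | i
    · simp only [hS, Matrix.add_apply, Matrix.sub_apply, fromRows_apply_inl, LinearMap.neg_apply,
        LinearMap.comp_apply, sylv, lft, LinearMap.coe_mk, AddHom.coe_mk, Matrix.neg_apply,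
        Matrix.zero_mul, Matrix.zero_apply, Matrix.mul_assoc]
      ring
    · simp only [Matrix.add_apply, Matrix.sub_apply, fromRows_apply_inr, Matrix.zero_mul,
        Matrix.zero_apply, Matrix.one_mul]
      ring
  have hsy : LinearMap.det (sylv Z A) ≠ 0 := by
    intro h
    have h1 := LinearMap.bot_lt_ker_of_det_eq_zero h
    rw [LinearMap.ker_eq_bot.mpr hinj] at h1
    exact lt_irrefl _ h1
  have hSdet : |LinearMap.det S| = |LinearMap.det (sylv Z A)| * P.det ^ Fintype.card b := by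
    have h1 : S = (-1 : ℝ) • ((sylv Z A).comp (lft P)) := by
      refine LinearMap.ext fun V => ?_
      refine Matrix.ext fun i j => ?_
      change -(sylv Z A (lft P V)) i j = (-1 : ℝ) * (sylv Z A (lft P V)) i j
      ring
    rw [h1, LinearMap.det_smul, LinearMap.det_comp, (hB a b P (1 : Matrix b b ℝ)).1, abs_mul,
      abs_mul, abs_pow, abs_pow, abs_neg, abs_one, one_pow, one_mul, abs_of_pos hPdet]
  have hSne : LinearMap.det S ≠ 0 := by
    intro h
    rw [h, abs_zero] at hSdet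
    have : 0 < |LinearMap.det (sylv Z A)| * P.det ^ Fintype.card b := by positivity
    exact this.ne hSdet
  have hLdet : LinearMap.det (lft M⁻¹ : Matrix (a ⊕ κ) b ℝ →ₗ[ℝ] Matrix (a ⊕ κ) b ℝ) =
      (M⁻¹).det ^ Fintype.card b := (hB (a ⊕ κ) b M⁻¹ (1 : Matrix b b ℝ)).1
  have hMi : (M⁻¹).det = (M.det)⁻¹ := by rw [det_nonsing_inv, Ring.inverse_eq_inv']
  have hLne : LinearMap.det (lft M⁻¹ : Matrix (a ⊕ κ) b ℝ →ₗ[ℝ] Matrix (a ⊕ κ) b ℝ) ≠ 0 := by
    rw [hLdet, hMi]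
    exact pow_ne_zero _ (inv_ne_zero hMne)
  have hgM : Measurable fun T : Matrix (a ⊕ κ) b ℝ => g (M⁻¹ * T) := by
    have : Measurable (lft M⁻¹ : Matrix (a ⊕ κ) b ℝ →ₗ[ℝ] Matrix (a ⊕ κ) b ℝ) := meas_lin _
    exact hgm.comp this
  set h : Matrix a b ℝ → ℝ≥0∞ := fun W => ∫⁻ C : Matrix κ b ℝ, g (M⁻¹ * fromRows W C) with hh
  have hhm : Measurable h := by
    have := (hgM.comp (meas_fromRows (m₁ := a) (m₂ := κ) (n := b)))
    exact Measurable.lintegral_prod_right' this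
  have s1 : ∀ V : Matrix a b ℝ, ∫⁻ C : Matrix κ b ℝ,
      g (K * C + fromRows (V * A - Z * V) (-(C1 * V))) = h (S V) := by
    intro V
    have e1 : ∀ C : Matrix κ b ℝ, g (K * C + fromRows (V * A - Z * V) (-(C1 * V))) =
        (fun C => g (M⁻¹ * fromRows (S V) C)) (C + (K.toRows₁)ᵀ * (P * (V * A))) := by
      intro C
      simp only
      rw [← hkey V C, ← Matrix.mul_assoc, nonsing_inv_mul _ hMu, Matrix.one_mul]
    simp_rw [e1]
    rw [lintegral_add_right_eq_self (fun C => g (M⁻¹ * fromRows (S V) C))]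
  simp_rw [s1]
  rw [lint_lin S hSne h hhm]
  have s3 : ∫⁻ W, h W = ∫⁻ T : Matrix (a ⊕ κ) b ℝ, g (M⁻¹ * T) :=
    (lint_rows (fun T : Matrix (a ⊕ κ) b ℝ => g (M⁻¹ * T)) hgM).symm
  rw [s3]
  have s4 := lint_lin (lft M⁻¹ : Matrix (a ⊕ κ) b ℝ →ₗ[ℝ] Matrix (a ⊕ κ) b ℝ) hLne g hgm
  have s5 : ∫⁻ T : Matrix (a ⊕ κ) b ℝ, g (M⁻¹ * T) =
      ∫⁻ T : Matrix (a ⊕ κ) b ℝ, g ((lft M⁻¹ : Matrix (a ⊕ κ) b ℝ →ₗ[ℝ] Matrix (a ⊕ κ) b ℝ) T) :=
    rfl
  rw [s5, s4, ← mul_assoc, ← mul_assoc, ← ENNReal.ofReal_mul (abs_nonneg _),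
    ← ENNReal.ofReal_mul (by positivity)]
  have s6 : |LinearMap.det (sylv Z A)| * |(LinearMap.det S)⁻¹| *
      |(LinearMap.det (lft M⁻¹ : Matrix (a ⊕ κ) b ℝ →ₗ[ℝ] Matrix (a ⊕ κ) b ℝ))⁻¹| = 1 := by
    rw [hLdet, hMi, abs_inv, hSdet, inv_pow, inv_inv, abs_pow, hM1]
    have h1 : 0 < |LinearMap.det (sylv Z A)| := abs_pos.mpr hsy
    have h2 : 0 < P.det ^ Fintype.card b := by positivity
    field_simp
  rw [s6, ENNReal.ofReal_one, one_mul]

end Pool.Agent.H39.TO
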