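import Pool.Agent.H84.TO.TargetsT

open MeasureTheory Filter Topology

namespace Pool.Agent.H39.TO
open Pool.Agent.H84.TO

/-- log of `2 cosh (y/2)` -/
noncomputable def Lc (y : ℝ) : ℝ := Real.log (2 * Real.cosh (y / 2))

theorem exp_Lc (y : ℝ) : Real.exp (Lc y) = 2 * Real.cosh (y / 2) := by
  unfold Lc
  rw [Real.exp_log]
  have := Real.cosh_pos (y / 2)
  positivity

theorem two_cosh (y : ℝ) : 2 * Real.cosh (y / 2) = Real.exp (y / 2) + Real.exp (-(y / 2)) := by
  rw [Real.cosh_eq]; ring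

theorem sig_eq (y : ℝ) : Real.sigmoid y = Real.exp (y / 2 - Lc y) := by
  rw [Real.exp_sub, exp_Lc, two_cosh, Real.sigmoid_def]
  have h1 : Real.exp (-y) = Real.exp (-(y / 2)) * Real.exp (-(y / 2)) := by
    rw [← Real.exp_add]; ring_nf
  have h2 : Real.exp (y / 2) * Real.exp (-(y / 2)) = 1 := by
    rw [← Real.exp_add]; simp
  have h3 := Real.exp_pos (y / 2)
  have h4 := Real.exp_pos (-(y / 2))
  have h5 := Real.exp_pos (-y)
  rw [inv_eq_one_div, div_eq_div_iff (by positivity) (by positivity), h1]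
  linear_combination (-Real.exp (-(y / 2))) * h2

theorem one_sub_sig (y : ℝ) : 1 - Real.sigmoid y = Real.exp (-(y / 2) - Lc y) := by
  rw [← Real.sigmoid_neg, sig_eq]
  have : Lc (-y) = Lc y := by
    unfold Lc
    rw [neg_div, Real.cosh_neg]
  rw [this]
  ring_nf

theorem key (ℓ : ℕ) (x y : ℝ) :
    |Real.sigmoid y * (1 - Real.sigmoid y)| •
      (((Real.sigmoid y : ℝ) : ℂ) ^ ((ℓ : ℂ) / 2 + x * Complex.I - 1) *
        (1 - ((Real.sigmoid y : ℝ) : ℂ)) ^ ((ℓ : ℂ) / 2 - x * Complex.I - 1))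
      = ((((2 * Real.cosh (y / 2)) ^ ℓ)⁻¹ : ℝ) : ℂ) * Complex.exp (Complex.I * x * y) := by
  have h1 : (1 - ((Real.sigmoid y : ℝ) : ℂ)) = ((1 - Real.sigmoid y : ℝ) : ℂ) := by push_cast; rfl
  rw [h1, one_sub_sig, sig_eq, ← Real.exp_add, abs_of_pos (Real.exp_pos _), ← exp_Lc,
    ← Real.exp_nat_mul, ← Real.exp_neg]
  rw [Complex.cpow_def_of_ne_zero (by exact_mod_cast (Real.exp_pos _).ne'),
    Complex.cpow_def_of_ne_zero (by exact_mod_cast (Real.exp_pos _).ne'),
    ← Complex.ofReal_log (Real.exp_pos _).le, ← Complex.ofReal_log (Real.exp_pos _).le,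
    Real.log_exp, Real.log_exp, Complex.real_smul, Complex.ofReal_exp, Complex.ofReal_exp,
    ← Complex.exp_add, ← Complex.exp_add, ← Complex.exp_add]
  congr 1
  push_cast
  ring

theorem deriv_sig (y : ℝ) :
    HasDerivAt Real.sigmoid (Real.sigmoid y * (1 - Real.sigmoid y)) y :=
  Real.hasDerivAt_sigmoid y

theorem k1 : T_K1 := by
  intro ℓ hℓ
  have hl : (0 : ℝ) < (ℓ : ℝ) / 2 := by
    have : (0 : ℝ) < ℓ := by exact_mod_cast hℓ
    linarith
  have hreu : ∀ x : ℝ, 0 < ((ℓ : ℂ) / 2 + x * Complex.I).re := fun x => by simpa using hl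
  have hrev : ∀ x : ℝ, 0 < ((ℓ : ℂ) / 2 - x * Complex.I).re := fun x => by simpa using hl
  have hGp : 0 < Real.Gamma ((ℓ : ℝ) / 2) := Real.Gamma_pos_of_pos hl
  have hGl : 0 < Real.Gamma (ℓ : ℝ) := Real.Gamma_pos_of_pos (by linarith)
  -- integrability of the complex function
  have hint : ∀ x : ℝ, IntegrableOn (fun t : ℝ => ((t : ℂ) ^ ((ℓ : ℂ) / 2 + x * Complex.I - 1) *
        (1 - (t : ℂ)) ^ ((ℓ : ℂ) / 2 - x * Complex.I - 1))) (Set.Ioo 0 1) := by
    intro x
    have := Complex.betaIntegral_convergent (hreu x) (hrev x)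
    rw [intervalIntegrable_iff_integrableOn_Ioc_of_le zero_le_one] at this
    exact this.mono_set Set.Ioo_subset_Ioc_self
  have hder : ∀ y ∈ (Set.univ : Set ℝ),
      HasDerivWithinAt Real.sigmoid (Real.sigmoid y * (1 - Real.sigmoid y)) Set.univ y :=
    fun y _ => (deriv_sig y).hasDerivWithinAt
  have himg : Real.sigmoid '' Set.univ = Set.Ioo 0 1 := by
    rw [Set.image_univ, Real.range_sigmoid]
  have hinj : Set.InjOn Real.sigmoid Set.univ := Real.sigmoid_injective.injOn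
  have hI : ∀ x : ℝ, Integrable (fun y : ℝ => ((((2 * Real.cosh (y / 2)) ^ ℓ)⁻¹ : ℝ) : ℂ) *
      Complex.exp (Complex.I * x * y)) := by
    intro x
    have h := (integrableOn_image_iff_integrableOn_abs_deriv_smul MeasurableSet.univ hder hinj
      (fun t : ℝ => ((t : ℂ) ^ ((ℓ : ℂ) / 2 + x * Complex.I - 1) *
        (1 - (t : ℂ)) ^ ((ℓ : ℂ) / 2 - x * Complex.I - 1)))).mp (by rw [himg]; exact hint x)
    rw [integrableOn_univ] at h
    refine h.congr (ae_of_all _ fun y => ?_)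
    exact key ℓ x y
  have hE : ∀ x : ℝ, ∫ y : ℝ, ((((2 * Real.cosh (y / 2)) ^ ℓ)⁻¹ : ℝ) : ℂ) *
      Complex.exp (Complex.I * x * y) =
      Complex.betaIntegral ((ℓ : ℂ) / 2 + x * Complex.I) ((ℓ : ℂ) / 2 - x * Complex.I) := by
    intro x
    have h := integral_image_eq_integral_abs_deriv_smul MeasurableSet.univ hder hinj
      (fun t : ℝ => ((t : ℂ) ^ ((ℓ : ℂ) / 2 + x * Complex.I - 1) *
        (1 - (t : ℂ)) ^ ((ℓ : ℂ) / 2 - x * Complex.I - 1)))
    rw [himg, setIntegral_univ] at h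
    rw [Complex.betaIntegral, intervalIntegral.integral_of_le zero_le_one,
      integral_Ioc_eq_integral_Ioo, h]
    exact integral_congr_ae (ae_of_all _ fun y => (key ℓ x y).symm)
  refine ⟨?_, ?_, ?_, ?_⟩
  · unfold kk
    refine continuous_const.mul (Continuous.inv₀ (by fun_prop) fun y => ?_)
    have := Real.cosh_pos (y / 2)
    positivity
  · have h := (hI 0).norm
    have h2 : (fun y : ℝ => kk ℓ y) = fun y : ℝ => Real.Gamma ℓ / Real.Gamma (ℓ / 2) ^ 2 *
        ‖((((2 * Real.cosh (y / 2)) ^ ℓ)⁻¹ : ℝ) : ℂ) *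
      Complex.exp (Complex.I * (0 : ℝ) * y)‖ := by
      funext y
      unfold kk
      rw [norm_mul, Complex.norm_real]
      have := Real.cosh_pos (y / 2)
      rw [Real.norm_of_nonneg (by positivity)]
      simp
    change Integrable (fun y : ℝ => kk ℓ y)
    rw [h2]
    exact h.const_mul _
  · intro y
    unfold kk
    have := Real.cosh_pos (y / 2)
    positivity
  · intro x
    have h1 : ∀ y : ℝ, (kk ℓ y : ℂ) * Complex.exp (Complex.I * x * y) =
        ((Real.Gamma ℓ / Real.Gamma (ℓ / 2) ^ 2 : ℝ) : ℂ) *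
        (((((2 * Real.cosh (y / 2)) ^ ℓ)⁻¹ : ℝ) : ℂ) *
      Complex.exp (Complex.I * x * y)) := by
      intro y
      unfold kk
      push_cast
      ring
    simp_rw [h1]
    rw [integral_const_mul, hE x]
    have h2 := Complex.Gamma_mul_Gamma_eq_betaIntegral (hreu x) (hrev x)
    have h3 : (ℓ : ℂ) / 2 + x * Complex.I + ((ℓ : ℂ) / 2 - x * Complex.I) = (ℓ : ℂ) := by ring
    rw [h3] at h2
    have h4 : Complex.Gamma (ℓ : ℂ) = (Real.Gamma (ℓ : ℝ) : ℂ) := by
      rw [← Complex.Gamma_ofReal]; norm_cast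
    have h5 : (ℓ : ℂ) / 2 - x * Complex.I
          = (starRingEnd ℂ) ((ℓ : ℂ) / 2 + (x : ℂ) * Complex.I) := by
      have h6 : (starRingEnd ℂ) (2 : ℂ) = 2 := Complex.conj_ofNat 2
      simp [h6, sub_eq_add_neg]
    have h6 : Complex.Gamma ((ℓ : ℂ) / 2 - x * Complex.I) =
        (starRingEnd ℂ) (Complex.Gamma ((ℓ : ℂ) / 2 + (x : ℂ) * Complex.I)) := by
      rw [h5, Complex.Gamma_conj]
    have hG0 : Complex.Gamma ((ℓ : ℂ) / 2) = (Real.Gamma ((ℓ : ℝ) / 2) : ℂ) := by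
      rw [← Complex.Gamma_ofReal]
      push_cast
      rfl
    have h7 : Complex.betaIntegral ((ℓ : ℂ) / 2 + x * Complex.I) ((ℓ : ℂ) / 2 - x * Complex.I)
        = ((‖Complex.Gamma ((ℓ : ℂ) / 2 + (x : ℂ) * Complex.I)‖ ^ 2 / Real.Gamma (ℓ : ℝ) : ℝ) : ℂ) := by
      have h8 : (Real.Gamma (ℓ : ℝ) : ℂ) ≠ 0 := by exact_mod_cast hGl.ne'
      rw [h6, Complex.mul_conj, h4] at h2
      push_cast
      rw [eq_div_iff h8, mul_comm, ← h2, Complex.normSq_eq_norm_sq]
      push_cast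
      rfl
    rw [h7]
    unfold ss
    rw [norm_div, hG0, Complex.norm_real, Real.norm_eq_abs, abs_of_pos hGp, div_pow]
    rw [← Complex.ofReal_mul]
    congr 1
    field_simp

end Pool.Agent.H39.TO
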