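import Pool.Agent.H84.TO.TargetsT

open MeasureTheory Filter Topology

namespace Pool.Agent.H39.TO
open Pool.Agent.H84.TO

theorem norm_Gamma_le {s : ℂ} (hs : 0 < s.re) : ‖Complex.Gamma s‖ ≤ Real.Gamma s.re := by
  rw [Complex.Gamma_eq_integral hs, Complex.GammaIntegral, Real.Gamma_eq_integral hs]
  refine (norm_integral_le_integral_norm _).trans (le_of_eq ?_)
  refine setIntegral_congr_fun measurableSet_Ioi ?_
  intro x hx
  have hx' : 0 < x := hx
  simp only [norm_mul]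
  rw [Complex.norm_cpow_eq_rpow_re_of_pos hx', Complex.norm_real, Real.norm_eq_abs,
    abs_of_pos (Real.exp_pos _)]
  simp

theorem lre (ℓ : ℕ) (x : ℝ) : ((ℓ : ℂ) / 2 + x * Complex.I).re = (ℓ : ℝ) / 2 := by
  simp [Complex.div_re]

theorem k2 : T_K2 := by
  intro ℓ hℓ
  have hl : (0 : ℝ) < (ℓ : ℝ) / 2 := by
    have : (0 : ℝ) < ℓ := by exact_mod_cast hℓ
    linarith
  have hre : ∀ x : ℝ, 0 < ((ℓ : ℂ) / 2 + x * Complex.I).re := fun x => by rw [lre]; exact hl
  have hre0 : 0 < ((ℓ : ℂ) / 2).re := by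
    have := hre 0
    simpa using this
  have hG0 : Complex.Gamma ((ℓ : ℂ) / 2) = (Real.Gamma ((ℓ : ℝ) / 2) : ℂ) := by
    rw [← Complex.Gamma_ofReal]
    push_cast
    rfl
  have hGp : 0 < Real.Gamma ((ℓ : ℝ) / 2) := Real.Gamma_pos_of_pos hl
  refine ⟨?_, ?_⟩
  · unfold ss
    refine (Continuous.norm ?_).pow 2
    refine Continuous.div_const ?_ _
    rw [continuous_iff_continuousAt]
    intro x
    have h1 : ContinuousAt Complex.Gamma ((ℓ : ℂ) / 2 + x * Complex.I) := by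
      apply Complex.continuousAt_Gamma
      intro m hm
      have := hre x
      rw [hm] at this
      simp at this
      linarith [(Nat.cast_nonneg m : (0 : ℝ) ≤ m)]
    exact ContinuousAt.comp (f := fun x : ℝ => (ℓ : ℂ) / 2 + x * Complex.I) h1
      (by fun_prop)
  · intro x
    have hne : Complex.Gamma ((ℓ : ℂ) / 2 + x * Complex.I) ≠ 0 :=
      Complex.Gamma_ne_zero_of_re_pos (hre x)
    have hne0 : Complex.Gamma ((ℓ : ℂ) / 2) ≠ 0 := Complex.Gamma_ne_zero_of_re_pos hre0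
    refine ⟨?_, ?_, ?_⟩
    · unfold ss
      exact pow_pos (norm_pos_iff.mpr (div_ne_zero hne hne0)) 2
    · unfold ss
      set s : ℂ := (ℓ : ℂ) / 2 + x * Complex.I with hs
      have hsne : s ≠ 0 := by
        intro h
        have := hre x
        rw [← hs, h] at this
        simp at this
      have h1 : Complex.Gamma (s + 1) = s * Complex.Gamma s := Complex.Gamma_add_one s hsne
      have h2 : ‖Complex.Gamma (s + 1)‖ ≤ Real.Gamma ((ℓ : ℝ) / 2 + 1) := by
        have h3 : (s + 1).re = (ℓ : ℝ) / 2 + 1 := by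
          rw [Complex.add_re, hs, lre, Complex.one_re]
        have := norm_Gamma_le (s := s + 1) (by rw [h3]; linarith)
        rwa [h3] at this
      rw [Real.Gamma_add_one (ne_of_gt hl), h1, norm_mul] at h2
      have h4 : ‖s‖ ^ 2 = ((ℓ : ℝ) / 2) ^ 2 + x ^ 2 := by
        rw [← Complex.normSq_eq_norm_sq, hs, Complex.normSq_apply]
        simp [Complex.div_re, Complex.div_im]
        ring
      rw [norm_div, hG0, Complex.norm_real, Real.norm_eq_abs, abs_of_pos hGp, div_pow]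
      have h5 : ‖s‖ ^ 2 * ‖Complex.Gamma s‖ ^ 2 ≤ ((ℓ : ℝ) / 2) ^ 2 * Real.Gamma ((ℓ : ℝ) / 2) ^ 2 := by
        rw [← mul_pow, ← mul_pow]
        exact pow_le_pow_left₀ (by positivity) h2 2
      rw [h4] at h5
      have h6 : 0 < 1 + 4 * x ^ 2 / (ℓ : ℝ) ^ 2 := by positivity
      rw [div_le_iff₀ (by positivity)]
      rw [inv_mul_eq_div, le_div_iff₀ h6]
      have hll : (0 : ℝ) < ℓ := by linarith
      have h7 : ‖Complex.Gamma s‖ ^ 2 * (1 + 4 * x ^ 2 / (ℓ : ℝ) ^ 2) =
          ((((ℓ : ℝ) / 2) ^ 2 + x ^ 2) * ‖Complex.Gamma s‖ ^ 2) / ((ℓ : ℝ) / 2) ^ 2 := by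
        field_simp
        ring
      rw [h7, div_le_iff₀ (by positivity)]
      linarith
    · unfold ss
      have h1 : (ℓ : ℂ) / 2 + ((-x : ℝ) : ℂ) * Complex.I
          = (starRingEnd ℂ) ((ℓ : ℂ) / 2 + (x : ℂ) * Complex.I) := by
        have h2 : (starRingEnd ℂ) (2 : ℂ) = 2 := Complex.conj_ofNat 2
        simp [h2]
      rw [h1, Complex.Gamma_conj, norm_div, norm_div, Complex.norm_conj]

end Pool.Agent.H39.TO
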