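import Pool.Agent.H84.TO.TargetsT

open MeasureTheory Filter Topology
open scoped FourierTransform Convolution

namespace Pool.Agent.H39.TO
open Pool.Agent.H84.TO

section
variable {ℓ : ℕ}

theorem ss_pow_le (h2 : T_K2) (hℓ : 1 ≤ ℓ) {m : ℕ} (hm : 1 ≤ m) (x : ℝ) :
    ss ℓ x ^ m ≤ (1 + 4 * x ^ 2 / (ℓ : ℝ) ^ 2)⁻¹ := by
  obtain ⟨a, b, c⟩ := (h2 ℓ hℓ).2 x
  have h1 : (1 + 4 * x ^ 2 / (ℓ : ℝ) ^ 2)⁻¹ ≤ 1 := by
    apply inv_le_one_of_one_le₀
    have : 0 ≤ 4 * x ^ 2 / (ℓ : ℝ) ^ 2 := by positivity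
    linarith
  have h3 : ss ℓ x ^ m ≤ ss ℓ x := pow_le_of_le_one a.le (b.trans h1) (by omega)
  exact h3.trans b

theorem dom_int (hℓ : 1 ≤ ℓ) {m : ℕ} (hm : 1 ≤ m) :
    Integrable (fun x : ℝ => (1 + 4 * m * x ^ 2 / (ℓ : ℝ) ^ 2)⁻¹) ∧
    ∫ x : ℝ, (1 + 4 * m * x ^ 2 / (ℓ : ℝ) ^ 2)⁻¹ = Real.pi * ℓ / (2 * Real.sqrt m) := by
  have hl : (0 : ℝ) < ℓ := by exact_mod_cast hℓ
  have hm' : (0 : ℝ) < m := by exact_mod_cast hm
  have hs : 0 < Real.sqrt m := Real.sqrt_pos.mpr hm'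
  set c : ℝ := 2 * Real.sqrt m / ℓ with hc
  have hcp : 0 < c := by positivity
  have he : ∀ x : ℝ, (1 + 4 * m * x ^ 2 / (ℓ : ℝ) ^ 2)⁻¹ = (1 + (c * x) ^ 2)⁻¹ := by
    intro x
    congr 2
    rw [hc, mul_pow, div_pow, mul_pow, Real.sq_sqrt hm'.le]
    ring
  simp_rw [he]
  refine ⟨integrable_inv_one_add_sq.comp_mul_left' hcp.ne', ?_⟩
  rw [Measure.integral_comp_mul_left (fun x : ℝ => (1 + x ^ 2)⁻¹) c,
    integral_univ_inv_one_add_sq, abs_of_pos (by positivity), smul_eq_mul, hc]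
  field_simp

theorem ss_int (h2 : T_K2) (hℓ : 1 ≤ ℓ) {m : ℕ} (hm : 1 ≤ m) :
    Integrable (fun x : ℝ => ss ℓ x ^ m) := by
  have hd := (dom_int hℓ (le_refl 1)).1
  refine hd.mono' (((h2 ℓ hℓ).1.pow m).aestronglyMeasurable) (ae_of_all _ fun x => ?_)
  have h3 := ss_pow_le h2 hℓ hm x
  rw [Real.norm_of_nonneg (pow_nonneg ((h2 ℓ hℓ).2 x).1.le m)]
  simpa using h3

theorem exp_int (h2 : T_K2) (hℓ : 1 ≤ ℓ) {m : ℕ} (hm : 1 ≤ m) (y : ℝ) :
    Integrable (fun x : ℝ => ((ss ℓ x ^ m : ℝ) : ℂ) * Complex.exp (Complex.I * x * y)) := by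
  have h := (ss_int h2 hℓ hm).ofReal (𝕜 := ℂ)
  refine h.mul_bdd (c := 1) ?_ (ae_of_all _ fun x => ?_)
  · exact Continuous.aestronglyMeasurable (by fun_prop)
  · rw [mul_assoc, mul_comm Complex.I, ← Complex.ofReal_mul, Complex.norm_exp_ofReal_mul_I]

theorem km_complex (h2 : T_K2) (hℓ : 1 ≤ ℓ) {m : ℕ} (hm : 1 ≤ m) (y : ℝ) :
    ∫ x : ℝ, ((ss ℓ x ^ m : ℝ) : ℂ) * Complex.exp (Complex.I * x * y)
      = ((2 * Real.pi * km ℓ m y : ℝ) : ℂ) := by
  have h1 : 2 * Real.pi * km ℓ m y = ∫ x : ℝ, ss ℓ x ^ m * Real.cos (x * y) := by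
    unfold km
    rw [← mul_assoc, mul_one_div_cancel (by positivity), one_mul]
  rw [h1, ← integral_complex_ofReal]
  have h3 : ∫ x : ℝ, ((ss ℓ x ^ m : ℝ) : ℂ) * Complex.exp (Complex.I * x * y)
      = ∫ x : ℝ, ((ss ℓ x ^ m : ℝ) : ℂ) * Complex.exp (-(Complex.I * x * y)) := by
    rw [← integral_neg_eq_self]
    congr 1
    funext x
    rw [((h2 ℓ hℓ).2 x).2.2]
    push_cast
    ring_nf
  have h4 : Integrable (fun x : ℝ => ((ss ℓ x ^ m : ℝ) : ℂ) * Complex.exp (-(Complex.I * x * y))) := by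
    have := (exp_int h2 hℓ hm y).comp_neg
    refine this.congr (ae_of_all _ fun x => ?_)
    simp only
    rw [((h2 ℓ hℓ).2 x).2.2]
    push_cast
    ring_nf
  have h5 : ∫ x : ℝ, ((ss ℓ x ^ m * Real.cos (x * y) : ℝ) : ℂ) =
      1 / 2 * ((∫ x : ℝ, ((ss ℓ x ^ m : ℝ) : ℂ) * Complex.exp (Complex.I * x * y)) +
        (∫ x : ℝ, ((ss ℓ x ^ m : ℝ) : ℂ) * Complex.exp (-(Complex.I * x * y)))) := by
    rw [← integral_add (exp_int h2 hℓ hm y) h4, ← integral_const_mul]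
    congr 1
    funext x
    push_cast
    rw [Complex.cos]
    have e1 : (x : ℂ) * y * Complex.I = Complex.I * x * y := by ring
    have e2 : -((x : ℂ) * y) * Complex.I = -(Complex.I * x * y) := by ring
    rw [e1, e2]
    ring
  rw [h5, ← h3]
  ring

theorem cos_int (h2 : T_K2) (hℓ : 1 ≤ ℓ) {m : ℕ} (hm : 1 ≤ m) (y : ℝ) :
    Integrable (fun x : ℝ => ss ℓ x ^ m * Real.cos (x * y)) := by
  refine (ss_int h2 hℓ hm).mul_bdd (c := 1) ?_ (ae_of_all _ fun x => ?_)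
  · exact Continuous.aestronglyMeasurable (by fun_prop)
  · exact Real.abs_cos_le_one _

theorem km_one (h1 : T_K1) (h2 : T_K2) (hℓ : 1 ≤ ℓ) (y : ℝ) : km ℓ 1 y = kk ℓ y := by
  obtain ⟨c1, c2, c3, c4⟩ := h1 ℓ hℓ
  have hF : ∀ w : ℝ, 𝓕 (fun y : ℝ => (kk ℓ y : ℂ)) w = (ss ℓ (2 * Real.pi * w) : ℂ) := by
    intro w
    rw [Real.fourier_real_eq_integral_exp_smul]
    have h := c4 (-(2 * Real.pi * w))
    rw [((h2 ℓ hℓ).2 _).2.2] at h
    rw [← h]
    congr 1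
    funext v
    rw [smul_eq_mul, mul_comm]
    congr 2
    push_cast
    ring
  have hFf : 𝓕 (fun y : ℝ => (kk ℓ y : ℂ)) = fun w => (ss ℓ (2 * Real.pi * w) : ℂ) := funext hF
  have hint : Integrable (fun w : ℝ => (ss ℓ (2 * Real.pi * w) : ℂ)) := by
    have := (ss_int h2 hℓ (le_refl 1)).comp_mul_left' (R := 2 * Real.pi) (by positivity)
    simp only [pow_one] at this
    exact this.ofReal
  have hinv := Continuous.fourierInv_fourier_eq (f := fun y : ℝ => (kk ℓ y : ℂ))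
    (Complex.continuous_ofReal.comp c1) c2.ofReal (by rw [hFf]; exact hint)
  have hy := congrFun hinv y
  rw [hFf, Real.fourierInv_eq'] at hy
  have h3 : ∫ v : ℝ, Complex.exp (((2 * Real.pi * inner ℝ v y : ℝ) : ℂ) * Complex.I) •
      (ss ℓ (2 * Real.pi * v) : ℂ) = (((2 * Real.pi)⁻¹ : ℝ) : ℂ) *
      ∫ x : ℝ, ((ss ℓ x ^ 1 : ℝ) : ℂ) * Complex.exp (Complex.I * x * y) := by
    have := Measure.integral_comp_mul_left
      (fun x : ℝ => ((ss ℓ x ^ 1 : ℝ) : ℂ) * Complex.exp (Complex.I * x * y)) (2 * Real.pi)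
    rw [abs_of_pos (by positivity)] at this
    rw [Complex.real_smul] at this
    rw [← this]
    congr 1
    funext v
    simp only [pow_one, smul_eq_mul]
    rw [mul_comm]
    congr 2
    simp only [RCLike.inner_apply, conj_trivial]
    push_cast
    ring
  rw [h3, km_complex h2 hℓ (le_refl 1)] at hy
  have h4 : (km ℓ 1 y : ℂ) = (kk ℓ y : ℂ) := by
    rw [← hy]
    push_cast
    have : (Real.pi : ℂ) ≠ 0 := by exact_mod_cast Real.pi_ne_zero
    field_simp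
  exact_mod_cast h4

theorem km_cont (h2 : T_K2) (hℓ : 1 ≤ ℓ) {m : ℕ} (hm : 1 ≤ m) : Continuous (km ℓ m) := by
  unfold km
  refine continuous_const.mul ?_
  refine continuous_of_dominated (bound := fun x => ss ℓ x ^ m) ?_ ?_ (ss_int h2 hℓ hm) ?_
  · intro y
    exact (((h2 ℓ hℓ).1.pow m).mul (by fun_prop)).aestronglyMeasurable
  · intro y
    refine ae_of_all _ fun x => ?_
    rw [norm_mul, Real.norm_of_nonneg (pow_nonneg ((h2 ℓ hℓ).2 x).1.le m)]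
    exact mul_le_of_le_one_right (pow_nonneg ((h2 ℓ hℓ).2 x).1.le m) (Real.abs_cos_le_one _)
  · refine ae_of_all _ fun x => ?_
    fun_prop

theorem km_conv (h1 : T_K1) (h2 : T_K2) (hℓ : 1 ≤ ℓ) {m : ℕ} (hm : 1 ≤ m) (y : ℝ) :
    ∫ z, kk ℓ (y - z) * km ℓ m z = km ℓ (m + 1) y := by
  obtain ⟨c1, c2, c3, c4⟩ := h1 ℓ hℓ
  have hF : Integrable (Function.uncurry fun z x : ℝ => (kk ℓ (y - z) : ℂ) *
      (((ss ℓ x ^ m : ℝ) : ℂ) * Complex.exp (Complex.I * x * z))) (volume.prod volume) := by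
    have h3 : Integrable (fun p : ℝ × ℝ => kk ℓ (y - p.1) * ss ℓ p.2 ^ m)
        (volume.prod volume) := (c2.comp_sub_left y).mul_prod (ss_int h2 hℓ hm)
    refine h3.mono' ?_ (ae_of_all _ fun p => ?_)
    · apply Continuous.aestronglyMeasurable
      have hs := (h2 ℓ hℓ).1
      unfold Function.uncurry
      fun_prop
    · simp only [Function.uncurry, norm_mul, Complex.norm_real]
      rw [mul_assoc Complex.I, mul_comm Complex.I, ← Complex.ofReal_mul,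
        Complex.norm_exp_ofReal_mul_I, mul_one, Real.norm_of_nonneg (c3 _).le,
        Real.norm_of_nonneg (pow_nonneg ((h2 ℓ hℓ).2 _).1.le m)]
  have hsw := integral_integral_swap hF
  have hL : ∀ z : ℝ, ∫ x : ℝ, (kk ℓ (y - z) : ℂ) *
      (((ss ℓ x ^ m : ℝ) : ℂ) * Complex.exp (Complex.I * x * z)) =
      ((2 * Real.pi * (kk ℓ (y - z) * km ℓ m z) : ℝ) : ℂ) := by
    intro z
    rw [integral_const_mul, km_complex h2 hℓ hm]
    push_cast
    ring
  have hR : ∀ x : ℝ, ∫ z : ℝ, (kk ℓ (y - z) : ℂ) *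
      (((ss ℓ x ^ m : ℝ) : ℂ) * Complex.exp (Complex.I * x * z)) =
      ((ss ℓ x ^ (m + 1) : ℝ) : ℂ) * Complex.exp (Complex.I * x * y) := by
    intro x
    have h := c4 (-x)
    rw [((h2 ℓ hℓ).2 _).2.2] at h
    have h3 : ∫ z : ℝ, (kk ℓ (y - z) : ℂ) *
      (((ss ℓ x ^ m : ℝ) : ℂ) * Complex.exp (Complex.I * x * z)) =
      ∫ w : ℝ, (((ss ℓ x ^ m : ℝ) : ℂ) * Complex.exp (Complex.I * x * y)) *
        ((kk ℓ w : ℂ) * Complex.exp (Complex.I * ((-x : ℝ) : ℂ) * w)) := by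
      rw [← integral_sub_left_eq_self _ volume y]
      congr 1
      funext w
      have e1 : Complex.exp (Complex.I * x * ((y - w : ℝ) : ℂ)) =
          Complex.exp (Complex.I * x * y) * Complex.exp (Complex.I * ((-x : ℝ) : ℂ) * w) := by
        rw [← Complex.exp_add]
        congr 1
        push_cast
        ring
      rw [e1, sub_sub_cancel]
      ring
    rw [h3, integral_const_mul, h, pow_succ]
    push_cast
    ring
  simp_rw [hL, hR] at hsw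
  rw [km_complex h2 hℓ (by omega), integral_complex_ofReal, integral_const_mul] at hsw
  have h5 := Complex.ofReal_injective hsw
  have hp : (2 * Real.pi) ≠ 0 := by positivity
  exact mul_left_cancel₀ hp h5

theorem kk_one (h1 : T_K1) (hℓ : 1 ≤ ℓ) : ∫ y, kk ℓ y = 1 := by
  obtain ⟨c1, c2, c3, c4⟩ := h1 ℓ hℓ
  have h := c4 0
  have h0 : ss ℓ 0 = 1 := by
    unfold ss
    have hre0 : 0 < ((ℓ : ℂ) / 2).re := by
      have : (0 : ℝ) < ℓ := by exact_mod_cast hℓ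
      simpa using this
    have hne0 : Complex.Gamma ((ℓ : ℂ) / 2) ≠ 0 := Complex.Gamma_ne_zero_of_re_pos hre0
    simp [div_self hne0]
  rw [h0] at h
  simp only [Complex.ofReal_zero, mul_zero, zero_mul, Complex.exp_zero, mul_one] at h
  rw [integral_complex_ofReal] at h
  exact_mod_cast h

theorem km_pos_int (h1 : T_K1) (h2 : T_K2) (hℓ : 1 ≤ ℓ) (m : ℕ) (hm : 1 ≤ m) :
    (∀ y, 0 ≤ km ℓ m y) ∧ Integrable (km ℓ m) ∧ ∫ y, km ℓ m y = 1 := by
  obtain ⟨c1, c2, c3, c4⟩ := h1 ℓ hℓ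
  induction m, hm using Nat.le_induction with
  | base =>
    have : km ℓ 1 = kk ℓ := funext (km_one h1 h2 hℓ)
    rw [this]
    exact ⟨fun y => (c3 y).le, c2, kk_one h1 hℓ⟩
  | succ m hm ih =>
    obtain ⟨i1, i2, i3⟩ := ih
    have hcv : km ℓ (m + 1) = (km ℓ m ⋆[ContinuousLinearMap.mul ℝ ℝ] kk ℓ) := by
      funext y
      rw [← km_conv h1 h2 hℓ hm y, convolution_def]
      congr 1
      funext z
      simp [mul_comm]
    refine ⟨?_, ?_, ?_⟩
    · intro y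
      rw [← km_conv h1 h2 hℓ hm y]
      exact integral_nonneg fun z => mul_nonneg (c3 _).le (i1 z)
    · rw [hcv]
      exact i2.integrable_convolution _ c2
    · rw [hcv, integral_convolution _ i2 c2, i3, kk_one h1 hℓ]
      simp

end

theorem k3 (h1 : T_K1) (h2 : T_K2) : T_K3 := by
  intro ℓ hℓ
  refine ⟨km_one h1 h2 hℓ, ?_⟩
  intro m hm
  obtain ⟨p1, p2, p3⟩ := km_pos_int h1 h2 hℓ m hm
  have hl : (0 : ℝ) < ℓ := by exact_mod_cast hℓ
  have hm' : (0 : ℝ) < m := by exact_mod_cast hm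
  have hs : 0 < Real.sqrt m := Real.sqrt_pos.mpr hm'
  refine ⟨km_cont h2 hℓ hm, p2, p1, ?_, ?_, p3, km_conv h1 h2 hℓ hm, ?_⟩
  · intro y
    unfold km
    refine mul_le_mul_of_nonneg_left ?_ (by positivity)
    refine integral_mono (cos_int h2 hℓ hm y) (cos_int h2 hℓ hm 0) fun x => ?_
    obtain ⟨a, b, c⟩ := (h2 ℓ hℓ).2 x
    simp only [mul_zero, Real.cos_zero, mul_one]
    exact mul_le_of_le_one_right (pow_nonneg a.le m) (Real.cos_le_one _)
  · intro y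
    unfold km
    simp
  · unfold km
    have h3 : ∫ x : ℝ, ss ℓ x ^ m * Real.cos (x * 0) ≤ Real.pi * ℓ / (2 * Real.sqrt m) := by
      rw [← (dom_int hℓ hm).2]
      refine integral_mono ?_ (dom_int hℓ hm).1 ?_
      · simpa using ss_int h2 hℓ hm
      · intro x
        obtain ⟨a, b, c⟩ := (h2 ℓ hℓ).2 x
        simp only [mul_zero, Real.cos_zero, mul_one]
        have h4 : ss ℓ x ^ m ≤ ((1 + 4 * x ^ 2 / (ℓ : ℝ) ^ 2)⁻¹) ^ m :=
          pow_le_pow_left₀ a.le b m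
        refine h4.trans ?_
        rw [inv_pow]
        have h5 : 1 + 4 * m * x ^ 2 / (ℓ : ℝ) ^ 2 ≤ (1 + 4 * x ^ 2 / (ℓ : ℝ) ^ 2) ^ m := by
          have h6 : (-2 : ℝ) ≤ 4 * x ^ 2 / (ℓ : ℝ) ^ 2 := by
            have : 0 ≤ 4 * x ^ 2 / (ℓ : ℝ) ^ 2 := by positivity
            linarith
          have := one_add_mul_le_pow h6 m
          refine le_trans (le_of_eq ?_) this
          ring
        exact inv_anti₀ (by positivity) h5
    calc 1 / (2 * Real.pi) * ∫ x : ℝ, ss ℓ x ^ m * Real.cos (x * 0)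
        ≤ 1 / (2 * Real.pi) * (Real.pi * ℓ / (2 * Real.sqrt m)) :=
          mul_le_mul_of_nonneg_left h3 (by positivity)
      _ = ℓ / (4 * Real.sqrt m) := by
          field_simp
          norm_num

end Pool.Agent.H39.TO
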