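import Pool.Agent.H39.TO.F2

open MeasureTheory Matrix
open scoped ENNReal

namespace Pool.Agent.H39.TO
open Pool.Agent.H84.TO

section gen2
variable {ι κ a b : Type} [Fintype ι] [DecidableEq ι] [Fintype κ] [DecidableEq κ]
  [Fintype a] [DecidableEq a] [Fintype b] [DecidableEq b]

theorem blk_posdef {P1 : Matrix a a ℝ} {P2 : Matrix b b ℝ} :
    (fromBlocks P1 0 0 P2).PosDef ↔ P1.PosDef ∧ P2.PosDef := by
  constructor
  · intro h
    refine ⟨?_, ?_⟩
    · have h1 := h.submatrix (e := Sum.inl) Sum.inl_injective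
      have h2 : (fromBlocks P1 0 0 P2).submatrix Sum.inl Sum.inl = P1 := by
        refine Matrix.ext fun i j => rfl
      rwa [h2] at h1
    · have h1 := h.submatrix (e := Sum.inr) Sum.inr_injective
      have h2 : (fromBlocks P1 0 0 P2).submatrix Sum.inr Sum.inr = P2 := by
        refine Matrix.ext fun i j => rfl
      rwa [h2] at h1
  · rintro ⟨h1, h2⟩
    refine Matrix.PosDef.of_dotProduct_mulVec_pos ?_ ?_
    · rw [Matrix.IsHermitian, fromBlocks_conjTranspose, h1.isHermitian, h2.isHermitian]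
      simp
    · intro x hx
      have e1 : star x ⬝ᵥ (fromBlocks P1 0 0 P2 *ᵥ x) =
          star (x ∘ Sum.inl) ⬝ᵥ (P1 *ᵥ (x ∘ Sum.inl)) +
          star (x ∘ Sum.inr) ⬝ᵥ (P2 *ᵥ (x ∘ Sum.inr)) := by
        rw [fromBlocks_mulVec]
        simp [dotProduct, Fintype.sum_sum_type]
      rw [e1]
      have p1 : 0 ≤ star (x ∘ Sum.inl) ⬝ᵥ (P1 *ᵥ (x ∘ Sum.inl)) :=
        h1.posSemidef.dotProduct_mulVec_nonneg _
      have p2 : 0 ≤ star (x ∘ Sum.inr) ⬝ᵥ (P2 *ᵥ (x ∘ Sum.inr)) :=
        h2.posSemidef.dotProduct_mulVec_nonneg _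
      by_cases hl : x ∘ Sum.inl = 0
      · have hr : x ∘ Sum.inr ≠ 0 := by
          intro hr
          apply hx
          funext i
          rcases i with i | i
          · exact congrFun hl i
          · exact congrFun hr i
        have := h2.dotProduct_mulVec_pos hr
        linarith
      · have := h1.dotProduct_mulVec_pos hl
        linarith

/-- uniqueness of the solution of the Stein equation -/
theorem stein_uniq (Y : Matrix (ι ⊕ κ) ι ℝ) (h : Function.Injective (sylv (top Y) (top Y)))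
    {Q : Matrix ι ι ℝ} (hQ : Q - (top Y)ᵀ * Q * top Y = (bot Y)ᵀ * bot Y) : solP Y = Q := by
  apply h
  have h1 := stein_eq Y h
  change solP Y - (top Y)ᵀ * solP Y * top Y = Q - (top Y)ᵀ * Q * top Y
  rw [h1, hQ]

theorem top_asm (Z1 : Matrix (a ⊕ κ) a ℝ) (T : Matrix (a ⊕ κ) b ℝ) (X : Matrix b a ℝ)
    (A : Matrix b b ℝ) : top (asm Z1 T X A) = fromBlocks Z1.toRows₁ T.toRows₁ X A := by
  rw [asm]
  exact toRows₁_fromRows _ _

theorem bot_asm (Z1 : Matrix (a ⊕ κ) a ℝ) (T : Matrix (a ⊕ κ) b ℝ) (X : Matrix b a ℝ)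
    (A : Matrix b b ℝ) : bot (asm Z1 T X A) = fromCols Z1.toRows₂ T.toRows₂ := by
  rw [asm]
  exact toRows₂_fromRows _ _

theorem vv_det (V : Matrix a b ℝ) : (vv V).det = 1 := by
  rw [vv, det_fromBlocks_zero₂₁, det_one, det_one, one_mul]

theorem vv_mul_neg (V : Matrix a b ℝ) : vv V * vv (-V) = 1 := by
  rw [vv, vv, fromBlocks_multiply]
  simp

theorem vv_inv (V : Matrix a b ℝ) : (vv V)⁻¹ = vv (-V) := inv_eq_right_inv (vv_mul_neg V)

/-- the shear -/
theorem shear (Z1 : Matrix (a ⊕ κ) a ℝ) (T : Matrix (a ⊕ κ) b ℝ) (A : Matrix b b ℝ)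
    (V : Matrix a b ℝ) :
    asm Z1 (T + fromRows (V * A - Z1.toRows₁ * V) (-(Z1.toRows₂ * V))) 0 A =
      Pool.Agent.H84.TO.ext κ (vv V) * asm Z1 T 0 A * (vv V)⁻¹ := by
  rw [vv_inv, Pool.Agent.H84.TO.ext, asm, asm, fromBlocks_mul_fromRows, fromRows_mul]
  congr 1
  · rw [Matrix.zero_mul, add_zero, vv, vv, fromBlocks_multiply, fromBlocks_multiply]
    congr 1
    · simp
    · refine Matrix.ext fun i j => ?_
      simp only [Matrix.one_mul, Matrix.mul_one, Matrix.mul_zero, add_zero, Matrix.zero_mul,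
        zero_add, Matrix.mul_neg]
      change T.toRows₁ i j + (V * A - Z1.toRows₁ * V) i j =
        (-(Z1.toRows₁ * V)) i j + ((T.toRows₁ + V * A) i j)
      simp only [Matrix.sub_apply, Matrix.neg_apply, Matrix.add_apply]
      ring
    · simp
    · simp
  · rw [Matrix.zero_mul, zero_add, Matrix.one_mul, vv, fromCols_mul_fromBlocks]
    congr 1
    · simp
    · refine Matrix.ext fun i j => ?_
      simp only [Matrix.mul_one, Matrix.mul_neg]
      change T.toRows₂ i j + (-(Z1.toRows₂ * V)) i j =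
        ((-(Z1.toRows₂ * V)) + T.toRows₂) i j
      simp only [Matrix.neg_apply, Matrix.add_apply]
      ring

end gen2

theorem stb (hBLS : T_BLS) (hCON : T_CON) : T_STB := by
  intro a b κ _ _ _ _ _ _
  refine ⟨?_, ?_⟩
  · intro Z1 Y2 V K hg hK1 hK2 hinj
    set P1 := solP Z1 with hP1
    have hp1 : P1.PosDef := hg.2
    have hP1t : P1ᵀ = P1 := by
      have := hp1.isHermitian
      simpa [Matrix.IsHermitian, conjTranspose_eq_transpose_of_trivial] using this
    have hDt : (Pool.Agent.H84.TO.ext κ P1)ᵀ = Pool.Agent.H84.TO.ext κ P1 := by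
      rw [Pool.Agent.H84.TO.ext, fromBlocks_transpose, hP1t]; simp
    have hZK : Z1ᵀ * Pool.Agent.H84.TO.ext κ P1 * K = 0 := by
      have := congrArg transpose hK2
      rw [transpose_mul, transpose_mul, hDt, transpose_transpose, transpose_zero,
        ← Matrix.mul_assoc] at this
      exact this
    set Y0 : Matrix ((a ⊕ b) ⊕ κ) (a ⊕ b) ℝ := asm Z1 (K * bot Y2) 0 (top Y2) with hY0
    have hsh : asm Z1 (K * bot Y2 + fromRows (V * top Y2 - top Z1 * V) (-(bot Z1 * V))) 0
        (top Y2) = Pool.Agent.H84.TO.ext κ (vv V) * Y0 * (vv V)⁻¹ :=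
      shear Z1 (K * bot Y2) (top Y2) V
    rw [hsh]
    have hvu : IsUnit (vv V).det := by rw [vv_det]; exact isUnit_one
    obtain ⟨-, c2, c3, c4, c5⟩ := hCON (a ⊕ b) κ (vv V) Y0 hvu
    have c6 := c5 (vv_det V)
    have htop : top Y0 = fromBlocks (top Z1) (K.toRows₁ * bot Y2) 0 (top Y2) := by
      rw [hY0, top_asm]; rfl
    have hbot : bot Y0 = fromCols (bot Z1) (K.toRows₂ * bot Y2) := by
      rw [hY0, bot_asm]; rfl
    obtain ⟨b1, b2⟩ := hBLS a b (top Z1) (K.toRows₁ * bot Y2) (top Y2)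
    have hinj0 : Function.Injective (sylv (top Y0) (top Y0)) ↔
        Function.Injective (sylv (top Y2) (top Y2)) := by
      rw [htop, b2]
      exact ⟨fun h => h.2.1, fun h => ⟨hg.1, h, hinj⟩⟩
    -- the solution
    have hsol : Function.Injective (sylv (top Y2) (top Y2)) →
        solP Y0 = fromBlocks P1 0 0 (solP Y2) := by
      intro h2
      refine stein_uniq Y0 (hinj0.mpr h2) ?_
      have e1 : (top Y0)ᵀ * fromBlocks P1 0 0 (solP Y2) * top Y0 + (bot Y0)ᵀ * bot Y0 =
          fromBlocks P1 0 0 (solP Y2) := by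
        rw [htop, hbot, fromBlocks_transpose, fromBlocks_multiply, fromBlocks_multiply,
          transpose_fromCols, fromRows_mul_fromCols, fromBlocks_add]
        have z1 : (top Z1)ᵀ * P1 * top Z1 + (bot Z1)ᵀ * bot Z1 = P1 := by
          rw [← congr_ext]; exact zdz Z1 hg
        have gen : ∀ {x y : Type} [Fintype x] [Fintype y] (M : Matrix (a ⊕ κ) x ℝ)
            (N : Matrix (a ⊕ κ) y ℝ), Mᵀ * Pool.Agent.H84.TO.ext κ P1 * N =
            M.toRows₁ᵀ * P1 * N.toRows₁ + M.toRows₂ᵀ * N.toRows₂ := by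
          intro x y _ _ M N
          conv_lhs => rw [← fromRows_toRows M, ← fromRows_toRows N]
          rw [transpose_fromRows, Pool.Agent.H84.TO.ext, fromCols_mul_fromBlocks,
            fromCols_mul_fromRows]
          simp
        have z2 : (top Z1)ᵀ * P1 * K.toRows₁ + (bot Z1)ᵀ * K.toRows₂ = 0 := by
          rw [← gen Z1 K]; exact hZK
        have z3 : (K.toRows₁)ᵀ * P1 * top Z1 + (K.toRows₂)ᵀ * bot Z1 = 0 := by
          rw [← gen K Z1]; exact hK2
        have z4 : (K.toRows₁)ᵀ * P1 * K.toRows₁ + (K.toRows₂)ᵀ * K.toRows₂ = 1 := by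
          rw [← gen K K]; exact hK1
        have z5 : solP Y2 = (bot Y2)ᵀ * bot Y2 + (top Y2)ᵀ * solP Y2 * top Y2 := by
          rw [← stein_eq Y2 h2]; abel
        congr 1
        · simp only [Matrix.mul_zero, Matrix.zero_mul, add_zero, transpose_zero]
          exact z1
        · have e : (top Z1)ᵀ * P1 * (K.toRows₁ * bot Y2) + (bot Z1)ᵀ * (K.toRows₂ * bot Y2) =
              ((top Z1)ᵀ * P1 * K.toRows₁ + (bot Z1)ᵀ * K.toRows₂) * bot Y2 := by
            simp only [Matrix.add_mul, Matrix.mul_assoc]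
          rw [z2, Matrix.zero_mul] at e
          simp only [Matrix.mul_zero, Matrix.zero_mul, add_zero, transpose_zero]
          exact e
        · have e : (K.toRows₁ * bot Y2)ᵀ * P1 * top Z1 + (K.toRows₂ * bot Y2)ᵀ * bot Z1 =
              (bot Y2)ᵀ * ((K.toRows₁)ᵀ * P1 * top Z1 + (K.toRows₂)ᵀ * bot Z1) := by
            simp only [transpose_mul, Matrix.mul_add, Matrix.mul_assoc]
          rw [z3, Matrix.mul_zero] at e
          simp only [Matrix.mul_zero, add_zero]
          exact e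
        · have e : (K.toRows₁ * bot Y2)ᵀ * P1 * (K.toRows₁ * bot Y2) +
              (K.toRows₂ * bot Y2)ᵀ * (K.toRows₂ * bot Y2) =
              (bot Y2)ᵀ * ((K.toRows₁)ᵀ * P1 * K.toRows₁ + (K.toRows₂)ᵀ * K.toRows₂) *
                bot Y2 := by
            simp only [transpose_mul, Matrix.mul_add, Matrix.add_mul, Matrix.mul_assoc]
          rw [z4, Matrix.mul_one] at e
          simp only [Matrix.mul_zero, add_zero, zero_add]
          rw [add_right_comm, e]
          exact z5.symm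
      nth_rewrite 1 [← e1]
      abel
    have hgood0 : good Y0 ↔ good Y2 := by
      constructor
      · rintro ⟨h1, h2⟩
        have h3 := hinj0.mp h1
        rw [hsol h3] at h2
        exact ⟨h3, (blk_posdef.mp h2).2⟩
      · rintro ⟨h1, h2⟩
        refine ⟨hinj0.mpr h1, ?_⟩
        rw [hsol h1]
        exact blk_posdef.mpr ⟨hp1, h2⟩
    refine ⟨c4.trans hgood0, ?_⟩
    intro hg2
    refine ⟨?_, ?_⟩
    · rw [c3, hsol hg2.1, Pasm]
      have hu : uu (0 : Matrix b a ℝ) * vv V = vv V := by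
        rw [uu, fromBlocks_one, Matrix.one_mul]
      rw [hu]
    · rw [c6]
      unfold den
      rw [hsol hg2.1, htop, b1, det_fromBlocks_zero₂₁,
        Real.mul_rpow hp1.det_pos.le hg2.2.det_pos.le, abs_mul, abs_mul, mul_inv, mul_inv]
      have hne : LinearMap.det (sylv (top Z1) (top Y2)) ≠ 0 := by
        intro h
        have h1 := LinearMap.bot_lt_ker_of_det_eq_zero h
        rw [LinearMap.ker_eq_bot.mpr hinj] at h1
        exact lt_irrefl _ h1
      have hne' : |LinearMap.det (sylv (top Z1) (top Y2))| ≠ 0 := abs_ne_zero.mpr hne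
      have h9 : |LinearMap.det (sylv (top Z1) (top Y2))|⁻¹ *
          |LinearMap.det (sylv (top Z1) (top Y2))| = 1 := inv_mul_cancel₀ hne'
      calc _ = (P1.det ^ (-(Fintype.card κ : ℝ) / 2) * |detS (top Z1)|⁻¹) *
            ((solP Y2).det ^ (-(Fintype.card κ : ℝ) / 2) * |detS (top Y2)|⁻¹) *
            (|LinearMap.det (sylv (top Z1) (top Y2))|⁻¹ *
              |LinearMap.det (sylv (top Z1) (top Y2))|) := by ring
        _ = _ := by rw [h9, mul_one]
  · intro Z1 T A hgood
    obtain ⟨g1, g2⟩ := hgood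
    have htop : top (asm Z1 T 0 A) = fromBlocks (top Z1) T.toRows₁ 0 A := top_asm _ _ _ _
    have hbot : bot (asm Z1 T 0 A) = fromCols (bot Z1) T.toRows₂ := bot_asm _ _ _ _
    obtain ⟨b1, b2⟩ := hBLS a b (top Z1) T.toRows₁ A
    have g1' := g1
    rw [htop, b2] at g1'
    refine ⟨⟨g1'.1, ?_⟩, g1'.2.2⟩
    have h1 := stein_eq (asm Z1 T 0 A) g1
    set P := solP (asm Z1 T 0 A) with hP
    have h2 : solP Z1 = P.toBlocks₁₁ := by
      refine stein_uniq Z1 g1'.1 ?_
      have h3 : P.toBlocks₁₁ - ((top (asm Z1 T 0 A))ᵀ * P * top (asm Z1 T 0 A)).toBlocks₁₁ =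
          ((bot (asm Z1 T 0 A))ᵀ * bot (asm Z1 T 0 A)).toBlocks₁₁ := congrArg toBlocks₁₁ h1
      have h5 : ((top (asm Z1 T 0 A))ᵀ * P * top (asm Z1 T 0 A)).toBlocks₁₁ =
          (top Z1)ᵀ * P.toBlocks₁₁ * top Z1 := by
        rw [htop]
        conv_lhs => rw [← fromBlocks_toBlocks P]
        rw [fromBlocks_transpose, fromBlocks_multiply, fromBlocks_multiply,
          toBlocks_fromBlocks₁₁]
        simp
      have h6 : ((bot (asm Z1 T 0 A))ᵀ * bot (asm Z1 T 0 A)).toBlocks₁₁ =
          (bot Z1)ᵀ * bot Z1 := by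
        rw [hbot, transpose_fromCols, fromRows_mul_fromCols, toBlocks_fromBlocks₁₁]
      rw [h5, h6] at h3
      exact h3
    rw [h2]
    have h4 := g2.submatrix (e := Sum.inl) Sum.inl_injective
    exact h4

end Pool.Agent.H39.TO
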